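import Pool.Agent.Helper52.KP.StG

/-! # Project KP, chapter G, module EXL: extension of square integrable holomorphic functions to the
orbit -/

set_option autoImplicit false

namespace Pool.Agent.Helper97.KP

open Pool.Agent.Helper67.NO MeasureTheory Filter Pool.Agent.Helper52.KP
open scoped ContDiff ComplexOrder Topology

universe u

section expo

open scoped Matrix.Norms.Frobenius
open Matrix

/-- an eigenvector of a matrix is an eigenvector of its exponential -/
private theorem exl_exp_eig {n : Type} [Fintype n] [DecidableEq n] (Z : Matrix n n ℂ)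
    (v : n → ℂ) (s : ℂ) (h : Z *ᵥ v = s • v) :
    NormedSpace.exp Z *ᵥ v = Complex.exp s • v := by
  have hp : ∀ k : ℕ, Z ^ k *ᵥ v = s ^ k • v := by
    intro k
    induction k with
    | zero => simp
    | succ k ih =>
      rw [pow_succ', ← Matrix.mulVec_mulVec, ih, Matrix.mulVec_smul, h, smul_smul, pow_succ]
  have h1 : HasSum (fun k : ℕ => ((k.factorial : ℂ)⁻¹) • Z ^ k) (NormedSpace.exp Z) :=
    NormedSpace.exp_series_hasSum_exp' Z
  let L : Matrix n n ℂ →ₗ[ℂ] (n → ℂ) :=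
    { toFun := fun M => M *ᵥ v
      map_add' := fun M N => Matrix.add_mulVec M N v
      map_smul' := fun c M => Matrix.smul_mulVec c M v }
  have hL : Continuous L := LinearMap.continuous_of_finiteDimensional L
  have h2 : HasSum (fun k : ℕ => L (((k.factorial : ℂ)⁻¹) • Z ^ k)) (L (NormedSpace.exp Z)) :=
    h1.map L hL
  have h3 : HasSum (fun k : ℕ => ((k.factorial : ℂ)⁻¹) • s ^ k) (Complex.exp s) := by
    rw [Complex.exp_eq_exp_ℂ]
    exact NormedSpace.exp_series_hasSum_exp' s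
  have h4 : HasSum (fun k : ℕ => (((k.factorial : ℂ)⁻¹) • s ^ k) • v) (Complex.exp s • v) :=
    h3.smul_const v
  have h5 : (fun k : ℕ => L (((k.factorial : ℂ)⁻¹) • Z ^ k)) =
      fun k : ℕ => (((k.factorial : ℂ)⁻¹) • s ^ k) • v := by
    funext k
    rw [map_smul]
    change ((k.factorial : ℂ)⁻¹) • (Z ^ k *ᵥ v) = _
    rw [hp, smul_smul, smul_eq_mul]
  rw [h5] at h2
  exact h2.unique h4

end expo

section alg

variable {g : Type u} [LieRing g] [LieAlgebra ℂ g] [FiniteDimensional ℂ g]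

/-- the flow of an element with `[h, y] = y` -/
theorem exl_eig (h y : g) (hy : ⁅h, y⁆ = y) (s : ℂ) : expAd (s • h) y = Complex.exp s • y := by
  obtain ⟨b, hb⟩ : ∃ b : Module.Basis (Fin (Module.finrank ℂ g)) ℂ g, b = Module.finBasis ℂ g :=
    ⟨_, rfl⟩
  have h1 : Matrix.mulVec (LinearMap.toMatrix b b
      (LieAlgebra.ad ℂ g (s • h) : g →ₗ[ℂ] g)) (b.repr y) = s • (b.repr y : _ → ℂ) := by
    rw [LinearMap.toMatrix_mulVec_repr]
    have : (LieAlgebra.ad ℂ g (s • h)) y = s • y := by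
      rw [LieAlgebra.ad_apply, smul_lie, hy]
    rw [this, map_smul]
    rfl
  have h2 := exl_exp_eig _ _ _ h1
  unfold expAd
  rw [← hb]
  apply b.repr.injective
  ext i
  have h3 : (b.repr ((Matrix.toLin b b (NormedSpace.exp (LinearMap.toMatrix b b
      (LieAlgebra.ad ℂ g (s • h) : g →ₗ[ℂ] g)))) y)) i =
      Matrix.mulVec (NormedSpace.exp (LinearMap.toMatrix b b
      (LieAlgebra.ad ℂ g (s • h) : g →ₗ[ℂ] g))) (b.repr y) i := by
    have h4 := LinearMap.toMatrix_mulVec_repr b b (Matrix.toLin b b (NormedSpace.exp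
      (LinearMap.toMatrix b b (LieAlgebra.ad ℂ g (s • h) : g →ₗ[ℂ] g)))) y
    rw [LinearMap.toMatrix_toLin] at h4
    rw [h4]
  rw [h3, h2, map_smul]
  rfl

theorem ext_eq {x₀ : g} (f : OO x₀ → ℂ) (x : g) (h : Orb x₀ x) : Helper52.KP.ext f x = f ⟨x, h⟩ := by
  unfold Helper52.KP.ext
  rw [dif_pos h]

theorem chart_smul {k : ℕ} (c : ℂ) (x : g) (X : Fin k → g) (w : Fin k → ℂ) :
    chart (c • x) X w = c • chart x X w := by
  unfold chart
  rw [map_smul]

/-- linear functionals are continuous along holomorphic maps -/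
theorem cont_lin {k : ℕ} (E : (Fin k → ℂ) → g) (hE : Continuous fun w => co (E w))
    (l : g →ₗ[ℂ] ℂ) : Continuous fun w => l (E w) := by
  have h1 : ∀ w, l (E w) = ∑ i, co (E w) i * l (Module.finBasis ℂ g i) := by
    intro w
    conv_lhs => rw [← (Module.finBasis ℂ g).sum_repr (E w)]
    rw [map_sum]
    refine Finset.sum_congr rfl fun i _ => ?_
    rw [map_smul]
    rfl
  have h2 : (fun w => l (E w)) = fun w => ∑ i, co (E w) i * l (Module.finBasis ℂ g i) :=
    funext h1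
  rw [h2]
  exact continuous_finsetSum _ fun i _ => ((continuous_apply i).comp hE).mul continuous_const

theorem cont_size {k : ℕ} (E : (Fin k → ℂ) → g) (hE : Continuous fun w => co (E w)) :
    Continuous fun w => size (E w) := by
  unfold size
  exact continuous_finsetSum _ fun i _ => ((continuous_apply i).comp hE).norm

theorem cont_mns {k : ℕ} (E : (Fin k → ℂ) → g) (hE : Continuous fun w => co (E w)) (m : ℕ) :
    Continuous fun w => mns m (E w) := by
  unfold mns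
  refine continuous_finsetSum _ fun a _ => continuous_finsetSum _ fun b _ => ?_
  refine Continuous.norm ?_
  unfold mnr
  refine Continuous.matrix_det ?_
  refine continuous_matrix fun i j => ?_
  simp only [Matrix.submatrix_apply, LinearMap.toMatrix_apply]
  exact cont_lin E hE
    { toFun := fun x => (Module.finBasis ℂ g).repr ⁅x, Module.finBasis ℂ g (b j)⁆ (a i)
      map_add' := fun x y => by simp [add_lie]
      map_smul' := fun c x => by simp [smul_lie] }

end alg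

section gen

/-- continuous functions which agree on a dense set agree -/
theorem eq_of_dense {E : Type*} [TopologicalSpace E] (N : Set E) (hN : IsOpen N) (A B : E → ℂ)
    (hA : ContinuousOn A N) (hB : ContinuousOn B N)
    (h : ∀ V ⊆ N, IsOpen V → V.Nonempty → ∃ w ∈ V, A w = B w) : ∀ w ∈ N, A w = B w := by
  intro w hw
  by_contra hne
  have h1 : IsOpen (N ∩ (fun x => A x - B x) ⁻¹' {0}ᶜ) :=
    (hA.sub hB).isOpen_inter_preimage hN isOpen_compl_singleton
  obtain ⟨x, hx, hx'⟩ := h _ Set.inter_subset_left h1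
    ⟨w, hw, by simpa [sub_eq_zero] using hne⟩
  apply hx.2
  rw [Set.mem_singleton_iff]
  exact sub_eq_zero.2 hx'

theorem poly_diff {m : ℕ} (P : MvPolynomial (Fin m) ℂ) :
    Differentiable ℂ (fun z : Fin m → ℂ => MvPolynomial.eval z P) := by
  induction P using MvPolynomial.induction_on with
  | C a => simp
  | add p q hp hq =>
    simp only [map_add]
    exact hp.add hq
  | mul_X p i hp =>
    simp only [map_mul, MvPolynomial.eval_X]
    exact hp.mul (differentiable_apply i)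

theorem det_real {m : ℕ} (A : (Fin m → ℂ) →L[ℂ] (Fin m → ℂ)) :
    (A.restrictScalars ℝ).det = ‖A.det‖ ^ 2 := by
  have h1 : (A.restrictScalars ℝ).det =
      LinearMap.det ((A : (Fin m → ℂ) →ₗ[ℂ] (Fin m → ℂ)).restrictScalars ℝ) := rfl
  rw [h1, LinearMap.det_restrictScalars, Algebra.norm_complex_apply, Complex.normSq_eq_norm_sq]

end gen

section main

variable {g : Type u} [LieRing g] [LieAlgebra ℂ g] [FiniteDimensional ℂ g]

/-- the set where the local extension is defined -/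
def BL (m : ℕ) (ε : ℝ) : Set (Fin m → ℂ) := {w | ‖w‖ < ε}

theorem isOpen_BL (m : ℕ) (ε : ℝ) : IsOpen (BL m ε) := isOpen_lt continuous_norm continuous_const

/-- the local extension at a point of the orbit -/
theorem local_ext [LieAlgebra.IsSemisimple ℂ g] (hEXT : StEXT) (hTRN : StTRN.{u})
    (hORB : StORB.{u}) (hCLO : StCLO.{u}) (x₀ : g) (hx₀ : x₀ ≠ 0)
    (hnil : IsNilpotent (LieAlgebra.ad ℂ g x₀)) (C : Ch x₀) (h : (Fin C.m → ℂ) → ℂ)
    (hh : DifferentiableOn ℂ h {z | MvPolynomial.eval z C.Δ ≠ 0})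
    (hint : ∀ r δ : ℝ, 0 < δ → IntegrableOn (fun z => ‖h z‖ ^ 2)
      {z | MvPolynomial.eval z C.Δ ≠ 0 ∧ size (C.Φ z) ≤ r ∧ δ ≤ mns C.m (C.Φ z)})
    (x : OO x₀) (X : Fin C.m → g) (hX : Frm x.1 X) :
    ∃ (ε : ℝ) (F : (Fin C.m → ℂ) → ℂ), 0 < ε ∧ DifferentiableOn ℂ F (BL C.m ε) ∧
      (∀ w z, ‖w‖ < ε → MvPolynomial.eval z C.Δ ≠ 0 → C.Φ z = chart x.1 X w →
        F w = h z / MvPolynomial.eval z C.J) ∧
      ∀ V ⊆ BL C.m ε, IsOpen V → V.Nonempty →
        ∃ w ∈ V, ∃ z, MvPolynomial.eval z C.Δ ≠ 0 ∧ C.Φ z = chart x.1 X w := by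
  obtain ⟨ε₁, δ₁, a, b, τ, hε₁, _, ha, t1, t2, t3, t4, _⟩ := hTRN g x₀ hx₀ hnil C x X hX
  obtain ⟨_, _, _, o3, _, _, _⟩ := hORB g
  obtain ⟨o4, o5, _⟩ := o3 C.m x.1 X
  have hco : Continuous fun w => co (chart x.1 X w) := by
    have := o4.continuousOn
    exact continuousOn_univ.1 this
  have horb : ∀ w, Orb x₀ (chart x.1 X w) := fun w => Orb.step _ _ x.2
  obtain ⟨c1, _⟩ := hCLO g x₀ hx₀ hnil
  have hm0 : 0 < mns C.m x.1 := by
    rw [C.hrk]
    exact c1 x.1 x.2
  -- a smaller ball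
  have hev : ∀ᶠ w in 𝓝 (0 : Fin C.m → ℂ), size (chart x.1 X w) < size x.1 + 1 ∧
      mns C.m x.1 / 2 < mns C.m (chart x.1 X w) := by
    have e1 := (cont_size _ hco).tendsto (0 : Fin C.m → ℂ)
    have e2 := (cont_mns _ hco C.m).tendsto (0 : Fin C.m → ℂ)
    rw [o5] at e1 e2
    exact (e1.eventually_lt_const (by linarith)).and (e2.eventually_const_lt (by linarith))
  obtain ⟨ε₂, hε₂, hb⟩ := Metric.eventually_nhds_iff.1 hev
  obtain ⟨ε, hε⟩ : ∃ ε, ε = min ε₁ ε₂ := ⟨_, rfl⟩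
  have hε0 : 0 < ε := by
    rw [hε]
    exact lt_min hε₁ hε₂
  have hle1 : ε ≤ ε₁ := by
    rw [hε]
    exact min_le_left _ _
  have hle2 : ε ≤ ε₂ := by
    rw [hε]
    exact min_le_right _ _
  have hP : ∀ w, Helper52.KP.ext C.p₁ (chart x.1 X w) ≠ 0 ↔
      ∃ z, MvPolynomial.eval z C.Δ ≠ 0 ∧ C.Φ z = chart x.1 X w := by
    intro w
    rw [ext_eq C.p₁ _ (horb w)]
    exact C.p1 ⟨chart x.1 X w, horb w⟩
  have hPd : Differentiable ℂ (fun w => Helper52.KP.ext C.p₁ (chart x.1 X w)) := by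
    have h1 := C.p1mem.1 x C.m X
    have h2 : (fun w => Helper52.KP.ext C.p₁ (chart x.1 X w)) =
        fun w => C.p₁ ⟨chart x.1 X w, Orb.step _ _ x.2⟩ := by
      funext w
      exact ext_eq C.p₁ _ (horb w)
    rw [h2]
    exact h1
  obtain ⟨S, hS⟩ : ∃ S : Set (Fin C.m → ℂ), S = {w | w ∈ BL C.m ε ∧
      Helper52.KP.ext C.p₁ (chart x.1 X w) ≠ 0} := ⟨_, rfl⟩
  have hSo : IsOpen S := by
    rw [hS]
    exact (isOpen_BL C.m ε).inter (isOpen_ne_fun hPd.continuous continuous_const)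
  have hSs : S ⊆ {w | ‖w‖ < ε₁ ∧ Helper52.KP.ext C.p₁ (chart x.1 X w) ≠ 0} := by
    intro w hw
    rw [hS] at hw
    exact ⟨lt_of_lt_of_le hw.1 hle1, hw.2⟩
  have hτS : DifferentiableOn ℂ τ S := t2.mono hSs
  have hτd : ∀ w ∈ S, DifferentiableAt ℂ τ w := fun w hw =>
    (hτS w hw).differentiableAt (hSo.mem_nhds hw)
  have hΔo : IsOpen {z : Fin C.m → ℂ | MvPolynomial.eval z C.Δ ≠ 0} :=
    isOpen_ne_fun (MvPolynomial.continuous_eval _) continuous_const
  have hφd : DifferentiableOn ℂ (fun w => h (τ w) / MvPolynomial.eval (τ w) C.J) S := by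
    intro w hw
    have h3 := t3 w (hSs hw).1 (hSs hw).2
    have h4 : DifferentiableAt ℂ h (τ w) := (hh _ h3.1).differentiableAt (hΔo.mem_nhds h3.1)
    have h5 : DifferentiableAt ℂ (fun z => MvPolynomial.eval z C.J) (τ w) :=
      poly_diff C.J _
    have h6 : DifferentiableAt ℂ (fun w => h (τ w)) w := h4.comp w (hτd w hw)
    have h7 : DifferentiableAt ℂ (fun w => MvPolynomial.eval (τ w) C.J) w :=
      h5.comp w (hτd w hw)
    have h8 : DifferentiableAt ℂ (fun w => h (τ w) / MvPolynomial.eval (τ w) C.J) w := by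
      simp only [div_eq_mul_inv]
      exact h6.mul (h7.inv (C.J0 _ h3.1))
    exact h8.differentiableWithinAt
  have hinjS : Set.InjOn τ S := by
    intro w hw w' hw' e
    have h3 := t3 w (hSs hw).1 (hSs hw).2
    have h3' := t3 w' (hSs hw').1 (hSs hw').2
    exact t1 w w' (hSs hw).1 (hSs hw').1 (by rw [← h3.2.1, ← h3'.2.1, e])
  have himg : τ '' S ⊆ {z | MvPolynomial.eval z C.Δ ≠ 0 ∧ size (C.Φ z) ≤ size x.1 + 1 ∧
      mns C.m x.1 / 2 ≤ mns C.m (C.Φ z)} := by
    rintro _ ⟨w, hw, rfl⟩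
    have h3 := t3 w (hSs hw).1 (hSs hw).2
    have h4 : dist w 0 < ε₂ := by
      rw [dist_zero_right]
      rw [hS] at hw
      exact lt_of_lt_of_le hw.1 hle2
    have h5 := hb h4
    refine ⟨h3.1, ?_, ?_⟩
    · rw [h3.2.1]
      exact h5.1.le
    · rw [h3.2.1]
      exact h5.2.le
  have hI1 : IntegrableOn (fun z => ‖h z‖ ^ 2) (τ '' S) :=
    (hint _ _ (by linarith)).mono_set himg
  have hI2 : IntegrableOn (fun w => ‖(fderiv ℂ τ w).det‖ ^ 2 * ‖h (τ w)‖ ^ 2) S := by
    have h1 := (integrableOn_image_iff_integrableOn_abs_det_fderiv_smul (volume)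
      hSo.measurableSet (f := τ) (f' := fun w => (fderiv ℂ τ w).restrictScalars ℝ)
      (fun w hw => ((hτd w hw).hasFDerivAt.restrictScalars ℝ).hasFDerivWithinAt) hinjS
      (fun z => ‖h z‖ ^ 2)).1 hI1
    refine h1.congr_fun (fun w _ => ?_) hSo.measurableSet
    simp only [det_real, smul_eq_mul]
    rw [abs_of_nonneg (by positivity)]
  have hI3 : IntegrableOn (fun w => ‖h (τ w) / MvPolynomial.eval (τ w) C.J‖ ^ 2) S := by
    refine Integrable.mono' (hI2.const_mul a⁻¹) ?_ ?_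
    · exact ((hφd.continuousOn.norm.pow 2).aestronglyMeasurable hSo.measurableSet)
    · refine (ae_restrict_iff' hSo.measurableSet).2 (ae_of_all _ fun w hw => ?_)
      have h3 := t3 w (hSs hw).1 (hSs hw).2
      have hJ : 0 < ‖MvPolynomial.eval (τ w) C.J‖ ^ 2 := by
        have := norm_pos_iff.2 (C.J0 _ h3.1)
        positivity
      rw [Real.norm_of_nonneg (by positivity), norm_div, div_pow, div_le_iff₀ hJ]
      have h4 : 1 ≤ a⁻¹ * (‖MvPolynomial.eval (τ w) C.J‖ ^ 2 * ‖(fderiv ℂ τ w).det‖ ^ 2) := by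
        rw [← div_eq_inv_mul, le_div_iff₀ ha, one_mul]
        exact h3.2.2.1
      have h5 : 0 ≤ ‖h (τ w)‖ ^ 2 := by positivity
      nlinarith [mul_le_mul_of_nonneg_left h4 h5]
  obtain ⟨F, hF1, hF2⟩ := hEXT C.m (BL C.m ε) (isOpen_BL C.m ε)
    (fun w => Helper52.KP.ext C.p₁ (chart x.1 X w))
    (fun w => h (τ w) / MvPolynomial.eval (τ w) C.J) hPd.differentiableOn
    (fun V hV hVo hVn => t4 V hVo hVn fun w hw => lt_of_lt_of_le (hV hw) hle1)
    (by rw [← hS]; exact hφd)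
    (fun w₀ hw₀ => ⟨Set.univ, isOpen_univ, trivial, by
      have : {w | w ∈ Set.univ ∧ w ∈ BL C.m ε ∧
          Helper52.KP.ext C.p₁ (chart x.1 X w) ≠ 0} = S := by
        rw [hS]
        simp
      rw [this]
      exact hI3⟩)
  refine ⟨ε, F, hε0, hF1, ?_, ?_⟩
  · intro w z hw hz he
    have h1 : Helper52.KP.ext C.p₁ (chart x.1 X w) ≠ 0 := (hP w).2 ⟨z, hz, he⟩
    have h3 := t3 w (lt_of_lt_of_le hw hle1) h1
    have h4 : τ w = z := C.inj _ _ h3.1 hz (by rw [h3.2.1, he])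
    rw [hF2 w hw h1, h4]
  · intro V hV hVo hVn
    obtain ⟨w, hw, hw'⟩ := t4 V hVo hVn fun w hw => lt_of_lt_of_le (hV hw) hle1
    exact ⟨w, hw, (hP w).1 hw'⟩

end main

section glue

variable {g : Type u} [LieRing g] [LieAlgebra ℂ g] [FiniteDimensional ℂ g]

/-- a frame of the right size -/
theorem frame_exists [LieAlgebra.IsSemisimple ℂ g] (hORB : StORB.{u}) (x₀ : g) (C : Ch x₀)
    (x : OO x₀) : ∃ X : Fin C.m → g, Frm x.1 X := by
  obtain ⟨_, _, o2, _, _, o5, _⟩ := hORB g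
  have h1 : C.m = rk x.1 := by
    rw [C.hrk, (o2 x₀ x.1 x.2).2.1]
  rw [h1]
  exact o5 x.1

theorem hEXL (hEXT : StEXT) (hTRN : StTRN.{u}) (hLFT : StLFT.{u}) (hORB : StORB.{u})
    (hCLO : StCLO.{u}) : StEXL.{u} := by
  intro g _ _ _ _ x₀ hx₀ hnil C k h hh hhom hint
  obtain ⟨_, _, _, o3, _, _, o6⟩ := hORB g
  have hchart : ∀ (j : ℕ) (x : g) (X : Fin j → g), HolMap Set.univ (chart x X) :=
    fun j x X => (o3 j x X).1
  have hchart0 : ∀ (j : ℕ) (x : g) (X : Fin j → g), chart x X 0 = x :=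
    fun j x X => (o3 j x X).2.1
  choose X hX using frame_exists hORB x₀ C
  choose ε F hε hF1 hF2 hF3 using fun x =>
    local_ext hEXT hTRN hORB hCLO x₀ hx₀ hnil C h hh hint x (X x) (hX x)
  have horb : ∀ (x : OO x₀) (j : ℕ) (Y : Fin j → g) (w : Fin j → ℂ), Orb x₀ (chart x.1 Y w) :=
    fun x j Y w => Orb.step _ _ x.2
  -- the lift of a map near a point
  have lift : ∀ (p : ℕ) (Ψ : (Fin p → ℂ) → g), HolMap Set.univ Ψ → ∀ (hΨ : ∀ z, Orb x₀ (Ψ z))
      (z₀ : Fin p → ℂ), ∃ (V : Set (Fin p → ℂ)) (ξ : (Fin p → ℂ) → (Fin C.m → ℂ)),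
      IsOpen V ∧ z₀ ∈ V ∧ DifferentiableOn ℂ ξ V ∧ ξ z₀ = 0 ∧ ∀ z ∈ V,
        ‖ξ z‖ < ε ⟨Ψ z₀, hΨ z₀⟩ ∧ Ψ z = chart (Ψ z₀) (X ⟨Ψ z₀, hΨ z₀⟩) (ξ z) := by
    intro p Ψ hΨh hΨ z₀
    obtain ⟨V', ξ, v1, v2, _, v4, v5, v6⟩ := hLFT g x₀ hx₀ hnil p Set.univ isOpen_univ Ψ hΨh
      (fun z _ => hΨ z) z₀ trivial C.m (X ⟨Ψ z₀, hΨ z₀⟩) (hX ⟨Ψ z₀, hΨ z₀⟩)
    have hopen : IsOpen (V' ∩ ξ ⁻¹' BL C.m (ε ⟨Ψ z₀, hΨ z₀⟩)) :=
      v4.continuousOn.isOpen_inter_preimage v1 (isOpen_BL _ _)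
    refine ⟨V' ∩ ξ ⁻¹' BL C.m (ε ⟨Ψ z₀, hΨ z₀⟩), ξ, hopen, ⟨v2, ?_⟩,
      v4.mono Set.inter_subset_left, v5, fun z hz => ⟨hz.2, v6 z hz.1⟩⟩
    show ‖ξ z₀‖ < _
    rw [v5, norm_zero]
    exact hε _
  -- the function
  obtain ⟨f, hf⟩ : ∃ f : OO x₀ → ℂ, ∀ x, f x = F x 0 := ⟨fun x => F x 0, fun x => rfl⟩
  have star : ∀ (x : OO x₀) (w : Fin C.m → ℂ), ‖w‖ < ε x →
      f ⟨chart x.1 (X x) w, horb x _ _ w⟩ = F x w := by
    intro x w hw
    rw [hf]
    obtain ⟨V, ξ, v1, v2, v3, v4, v5⟩ := lift C.m (chart x.1 (X x)) (hchart _ _ _)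
      (horb x _ _) w
    have hNo : IsOpen (V ∩ BL C.m (ε x)) := v1.inter (isOpen_BL _ _)
    have key := eq_of_dense (V ∩ BL C.m (ε x)) hNo (F x)
      (fun w' => F ⟨chart x.1 (X x) w, horb x _ _ w⟩ (ξ w'))
      ((hF1 x).continuousOn.mono Set.inter_subset_right)
      ((hF1 _).continuousOn.comp (v3.continuousOn.mono Set.inter_subset_left)
        (fun w' hw' => (v5 w' hw'.1).1))
      (fun V' hV' hVo hVn => by
        obtain ⟨w', hw', z, hz, hze⟩ := hF3 x V' (hV'.trans Set.inter_subset_right) hVo hVn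
        refine ⟨w', hw', ?_⟩
        have e1 := hF2 x w' z (hV' hw').2 hz hze
        have e2 := v5 w' (hV' hw').1
        have e3 := hF2 ⟨chart x.1 (X x) w, horb x _ _ w⟩ (ξ w') z e2.1 hz (by
          rw [hze, e2.2])
        rw [e1, e3]) w ⟨v2, hw⟩
    beta_reduce at key
    rw [v4] at key
    exact key.symm
  have val : ∀ (z : Fin C.m → ℂ) (hz : MvPolynomial.eval z C.Δ ≠ 0),
      f ⟨C.Φ z, C.orb z hz⟩ = h z / MvPolynomial.eval z C.J := by
    intro z hz
    rw [hf]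
    refine hF2 ⟨C.Φ z, C.orb z hz⟩ 0 z ?_ hz ?_
    · rw [norm_zero]
      exact hε _
    · rw [hchart0]
  have hdiff : ∀ (x : OO x₀) (j : ℕ) (Y : Fin j → g),
      Differentiable ℂ (fun w : Fin j → ℂ => f ⟨chart x.1 Y w, Orb.step _ _ x.2⟩) := by
    intro x j Y w
    obtain ⟨V, ξ, v1, v2, v3, v4, v5⟩ := lift j (chart x.1 Y) (hchart _ _ _)
      (horb x _ _) w
    have h1 : ∀ w' ∈ V, f ⟨chart x.1 Y w', Orb.step _ _ x.2⟩ =
        F ⟨chart x.1 Y w, horb x _ _ w⟩ (ξ w') := by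
      intro w' hw'
      obtain ⟨e1, e2⟩ := v5 w' hw'
      rw [← star ⟨chart x.1 Y w, horb x _ _ w⟩ (ξ w') e1]
      congr 1
      exact Subtype.ext e2
    have h2 : DifferentiableAt ℂ (fun w' => F ⟨chart x.1 Y w, horb x _ _ w⟩ (ξ w')) w := by
      have h3 : DifferentiableAt ℂ (F ⟨chart x.1 Y w, horb x _ _ w⟩) (ξ w) :=
        (hF1 _ _ (v5 w v2).1).differentiableAt ((isOpen_BL _ _).mem_nhds (v5 w v2).1)
      exact h3.comp w ((v3 w v2).differentiableAt (v1.mem_nhds v2))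
    refine h2.congr_of_eventuallyEq ?_
    filter_upwards [v1.mem_nhds v2] with w' hw'
    exact h1 w' hw'
  -- homogeneity for the circle
  have hcone : ∀ (y : OO x₀) (c : ℂ), c ≠ 0 → Orb x₀ (c • y.1) := fun y c hc =>
    (o6 x₀ y.1 hx₀ hnil y.2).2 c hc
  have hcirc : ∀ (y : OO x₀) (c : ℂ) (hc : c ≠ 0), ‖c‖ = 1 →
      f ⟨c • y.1, hcone y c hc⟩ = c ^ k * f y := by
    intro y c hc hc1
    have key := eq_of_dense (BL C.m (ε y)) (isOpen_BL _ _)
      (fun w => f ⟨chart (c • y.1) (X y) w, horb ⟨c • y.1, hcone y c hc⟩ _ _ w⟩)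
      (fun w => c ^ k * f ⟨chart y.1 (X y) w, horb y _ _ w⟩)
      ((hdiff ⟨c • y.1, hcone y c hc⟩ C.m (X y)).continuous.continuousOn)
      ((continuous_const.mul (hdiff y C.m (X y)).continuous).continuousOn)
      (fun V hV hVo hVn => by
        obtain ⟨w, hw, z, hz, hze⟩ := hF3 y V hV hVo hVn
        refine ⟨w, hw, ?_⟩
        have hz' : MvPolynomial.eval (scl C.w c z) C.Δ ≠ 0 := by
          exact C.sclU c z hc hz
        have e1 : f ⟨chart (c • y.1) (X y) w, horb ⟨c • y.1, hcone y c hc⟩ _ _ w⟩ =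
            f ⟨C.Φ (scl C.w c z), C.orb _ hz'⟩ := by
          congr 1
          refine Subtype.ext ?_
          simp only
          rw [chart_smul, C.hom, hze]
        have e2 : f ⟨chart y.1 (X y) w, horb y _ _ w⟩ = f ⟨C.Φ z, C.orb _ hz⟩ := by
          congr 1
          exact Subtype.ext hze.symm
        rw [e1, e2, val _ hz', val _ hz, hhom c hc1 z hz, C.Jhom]
        have hJ := C.J0 z hz
        have hcj : c ^ C.jd ≠ 0 := pow_ne_zero _ hc
        rw [pow_add]
        field_simp) 0 (by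
          show ‖(0 : Fin C.m → ℂ)‖ < _
          rw [norm_zero]
          exact hε y)
    beta_reduce at key
    have e1 : f ⟨chart (c • y.1) (X y) 0, horb ⟨c • y.1, hcone y c hc⟩ _ _ 0⟩ =
        f ⟨c • y.1, hcone y c hc⟩ := by
      congr 1
      exact Subtype.ext (hchart0 _ _ _)
    have e2 : f ⟨chart y.1 (X y) 0, horb y _ _ 0⟩ = f y := by
      congr 1
      exact Subtype.ext (hchart0 _ _ _)
    rw [e1, e2] at key
    exact key
  -- homogeneity in general
  have hhomog : ∀ (y : OO x₀) (s : ℂ),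
      f ⟨Complex.exp s • y.1, hcone y _ (Complex.exp_ne_zero s)⟩ = Complex.exp s ^ k * f y := by
    intro y
    obtain ⟨⟨h', hh'⟩, _⟩ := o6 x₀ y.1 hx₀ hnil y.2
    have hA : Differentiable ℂ (fun s : ℂ =>
        f ⟨Complex.exp s • y.1, hcone y _ (Complex.exp_ne_zero s)⟩) := by
      have h1 := hdiff y 1 (fun _ => h')
      have h2 : Differentiable ℂ (fun s : ℂ => (fun _ : Fin 1 => s)) :=
        differentiable_pi.2 fun _ => differentiable_id
      have h3 := h1.comp h2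
      have h4 : (fun s : ℂ => f ⟨Complex.exp s • y.1, hcone y _ (Complex.exp_ne_zero s)⟩) =
          (fun w : Fin 1 → ℂ => f ⟨chart y.1 (fun _ => h') w, Orb.step _ _ y.2⟩) ∘
            fun s : ℂ => (fun _ : Fin 1 => s) := by
        funext s
        simp only [Function.comp_apply]
        congr 1
        refine Subtype.ext ?_
        simp only [chart, Finset.univ_unique, Fin.default_eq_zero, Finset.sum_singleton]
        exact (exl_eig h' y.1 hh' s).symm
      rw [h4]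
      exact h3
    have hB : Differentiable ℂ (fun s : ℂ => Complex.exp s ^ k * f y) :=
      (Complex.differentiable_exp.pow k).mul_const _
    have hfreq : ∃ᶠ s in 𝓝[≠] (0 : ℂ),
        f ⟨Complex.exp s • y.1, hcone y _ (Complex.exp_ne_zero s)⟩ =
          Complex.exp s ^ k * f y := by
      have ht : Tendsto (fun n : ℕ => ((1 / ((n : ℝ) + 1) : ℝ) : ℂ) * Complex.I) atTop
          (𝓝[≠] (0 : ℂ)) := by
        rw [tendsto_nhdsWithin_iff]
        constructor
        · have h1 := (Complex.continuous_ofReal.tendsto 0).comp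
            (tendsto_one_div_add_atTop_nhds_zero_nat (𝕜 := ℝ))
          have h2 := h1.mul_const Complex.I
          simpa using h2
        · refine Eventually.of_forall fun n => ?_
          rw [Set.mem_compl_iff, Set.mem_singleton_iff, mul_eq_zero, not_or]
          refine ⟨?_, Complex.I_ne_zero⟩
          rw [Complex.ofReal_eq_zero]
          positivity
      refine ht.frequently (Frequently.of_forall fun n => ?_)
      refine hcirc y _ (Complex.exp_ne_zero _) ?_
      rw [Complex.norm_exp_ofReal_mul_I]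
    have h5 := AnalyticOnNhd.eq_of_frequently_eq
      (hA.differentiableOn.analyticOnNhd isOpen_univ)
      (hB.differentiableOn.analyticOnNhd isOpen_univ) hfreq
    intro s
    exact congrFun h5 s
  refine ⟨f, ⟨hdiff, ?_⟩, ?_⟩
  · intro x y c hc hy
    have h1 := hhomog x (Complex.log c)
    have h2 : f ⟨Complex.exp (Complex.log c) • x.1,
        hcone x _ (Complex.exp_ne_zero _)⟩ = f y := by
      congr 1
      refine Subtype.ext ?_
      simp only
      rw [Complex.exp_log hc, hy]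
    rw [h2, Complex.exp_log hc] at h1
    exact h1
  · intro z hz
    rw [ext_eq f _ (C.orb z hz), val z hz, div_mul_cancel₀ _ (C.J0 z hz)]

end glue

end Pool.Agent.Helper97.KP
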