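import Pool.Agent.Helper20.KP.StH
import Pool.Agent.Helper88.JT.Holo

/-! # Project KP, chapter H, module HFI: the finite projection is a covering -/

set_option autoImplicit false

namespace Pool.Agent.Helper97.KP

open MeasureTheory Filter Pool.Agent.Helper52.KP Pool.Agent.Helper20.KP
open scoped Topology

/-- local section of the projection at a point where it is unramified -/
theorem loc_sec (D : OD) (Y : D.LM) (x : Fin D.N → ℂ) (c : (Fin D.m → ℂ) → (Fin D.N → ℂ))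
    (hc : D.Cht x c) (hinj : Function.Injective (fun ξ => Y (fderiv ℂ c 0 ξ))) :
    ∃ (ρ δ : ℝ) (ζ : (Fin D.m → ℂ) → (Fin D.N → ℂ)), 0 < ρ ∧ 0 < δ ∧
      DifferentiableOn ℂ ζ (Metric.ball (Y x) ρ) ∧ ζ (Y x) = x ∧
      (∀ y ∈ Metric.ball (Y x) ρ, ζ y ∈ D.O ∧ Y (ζ y) = y) ∧
      ∀ x' ∈ D.O, ‖x' - x‖ < δ → x' = ζ (Y x') := by
  obtain ⟨Yc, hYc⟩ : ∃ Yc : (Fin D.N → ℂ) →L[ℂ] (Fin D.m → ℂ), ∀ v, Yc v = Y v :=
    ⟨LinearMap.toContinuousLinearMap Y, fun v => rfl⟩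
  obtain ⟨κ, hκ⟩ : ∃ κ : (Fin D.m → ℂ) → (Fin D.m → ℂ), κ = fun s => Yc (c s) := ⟨_, rfl⟩
  have hκd : Differentiable ℂ κ := by
    rw [hκ]
    exact Yc.differentiable.comp hc.dif
  have hκc : ContDiff ℂ 1 κ := by
    rw [contDiff_pi]
    intro i
    exact Pool.Agent.Helper88.JT.contDiff_nat 1 ((differentiable_pi.1 hκd) i)
  have hder : HasFDerivAt κ (Yc.comp (fderiv ℂ c 0)) 0 := by
    rw [hκ]
    exact Yc.hasFDerivAt.comp 0 (hc.dif 0).hasFDerivAt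
  have hAinj : Function.Injective
      ((Yc.comp (fderiv ℂ c 0) : (Fin D.m → ℂ) →L[ℂ] (Fin D.m → ℂ)) :
        (Fin D.m → ℂ) →ₗ[ℂ] (Fin D.m → ℂ)) := by
    intro a b hab
    apply hinj
    simpa [hYc] using hab
  obtain ⟨L, hL⟩ : ∃ L : (Fin D.m → ℂ) ≃L[ℂ] (Fin D.m → ℂ),
      (L : (Fin D.m → ℂ) →L[ℂ] (Fin D.m → ℂ)) = Yc.comp (fderiv ℂ c 0) := by
    refine ⟨(LinearEquiv.ofInjectiveEndo _ hAinj).toContinuousLinearEquiv, ?_⟩
    ext v i
    rfl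
  rw [← hL] at hder
  have h0 : κ 0 = Y x := by
    rw [hκ]
    simp only
    rw [hc.zero, hYc]
  obtain ⟨e, he⟩ : ∃ e : OpenPartialHomeomorph (Fin D.m → ℂ) (Fin D.m → ℂ),
      e = hκc.contDiffAt.toOpenPartialHomeomorph κ hder one_ne_zero := ⟨_, rfl⟩
  have hcoe : ∀ s, e s = κ s := by
    intro s
    rw [he]
    rfl
  have hs0 : (0 : Fin D.m → ℂ) ∈ e.source := by
    rw [he]
    exact hκc.contDiffAt.mem_toOpenPartialHomeomorph_source hder one_ne_zero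
  have ht0 : Y x ∈ e.target := by
    rw [← h0, ← hcoe]
    exact e.map_source hs0
  have hsymm : ContDiffAt ℂ 1 e.symm (Y x) := by
    have h1 := hκc.contDiffAt.to_localInverse hder one_ne_zero
    rw [h0] at h1
    rw [he]
    exact h1
  have hev : ∀ᶠ y in 𝓝 (Y x), y ∈ e.target ∧ DifferentiableAt ℂ e.symm y := by
    refine (e.open_target.eventually_mem ht0).and ?_
    exact (hsymm.eventually (by norm_num)).mono fun y hy => hy.differentiableAt (by norm_num)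
  obtain ⟨ρ, hρ, hb⟩ := Metric.eventually_nhds_iff_ball.1 hev
  obtain ⟨ε, hε, hεs⟩ := Metric.mem_nhds_iff.1 (e.open_source.mem_nhds hs0)
  obtain ⟨δ, hδ, hcov⟩ := hc.cov ε hε
  refine ⟨ρ, δ, fun y => c (e.symm y), hρ, hδ, ?_, ?_, ?_, ?_⟩
  · intro y hy
    exact ((hc.dif _).comp y (hb y hy).2).differentiableWithinAt
  · simp only
    have : e.symm (Y x) = 0 := by
      rw [← h0, ← hcoe]
      exact e.left_inv hs0
    rw [this, hc.zero]
  · intro y hy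
    refine ⟨hc.mem _, ?_⟩
    have h1 : κ (e.symm y) = y := by
      rw [← hcoe]
      exact e.right_inv (hb y hy).1
    rw [hκ] at h1
    simp only at h1
    rw [hYc] at h1
    exact h1
  · intro x' hx' hd
    obtain ⟨s, hs, hxs⟩ := hcov x' hx' hd
    have h1 : s ∈ e.source := hεs (by rwa [Metric.mem_ball, dist_zero_right])
    have h2 : e.symm (Y x') = s := by
      have h3 : Y x' = κ s := by
        rw [hκ, hxs]
        simp only
        rw [hYc]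
      rw [h3, ← hcoe]
      exact e.left_inv h1
    simp only
    rw [h2, hxs]

/-- numbering of a finite set -/
theorem number {E : Type} (S : Set E) (hS : S.Finite) (n : ℕ) (hn : S.ncard = n) :
    ∃ x : Fin n → E, Function.Injective x ∧ Set.range x = S := by
  classical
  have h1 : hS.toFinset.card = n := by
    rw [← hn, Set.ncard_eq_toFinset_card S hS]
  refine ⟨fun i => ((hS.toFinset.equivFinOfCardEq h1).symm i : E), ?_, ?_⟩
  · intro i j hij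
    exact (hS.toFinset.equivFinOfCardEq h1).symm.injective (Subtype.ext hij)
  · ext y
    rw [Set.mem_range]
    constructor
    · rintro ⟨i, rfl⟩
      exact hS.mem_toFinset.1 ((hS.toFinset.equivFinOfCardEq h1).symm i).2
    · intro hy
      refine ⟨(hS.toFinset.equivFinOfCardEq h1) ⟨y, hS.mem_toFinset.2 hy⟩, ?_⟩
      simp

theorem fb_bd (D : OD) (Y : D.LM) (hY : PJ D Y) : ∃ a : ℝ, 0 < a ∧
    ∀ x ∈ D.O, ‖x‖ ≤ ‖Y x‖ / a := by
  obtain ⟨a, ha, h⟩ := hY.bd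
  refine ⟨a, ha, fun x hx => ?_⟩
  rw [le_div_iff₀ ha, mul_comm]
  exact h x (subset_closure hx)

theorem Y_cont (D : OD) (Y : D.LM) : Continuous fun x => Y x :=
  LinearMap.continuous_of_finiteDimensional Y

/-- the fibre is finite -/
theorem fb_finite (D : OD) (Y : D.LM) (hY : PJ D Y) (y₀ : Fin D.m → ℂ)
    (hcl : ∀ x ∈ closure D.O, Y x = y₀ → x ∈ D.O)
    (hloc : ∀ x ∈ D.fb Y y₀, ∃ (δ : ℝ) (ζ : (Fin D.m → ℂ) → (Fin D.N → ℂ)), 0 < δ ∧
      ζ (Y x) = x ∧ ∀ x' ∈ D.O, ‖x' - x‖ < δ → x' = ζ (Y x')) : (D.fb Y y₀).Finite := by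
  by_contra hinf
  obtain ⟨a, ha, hbd⟩ := fb_bd D Y hY
  have hK : IsCompact (Metric.closedBall (0 : Fin D.N → ℂ) (‖y₀‖ / a)) :=
    isCompact_closedBall _ _
  have hsub : D.fb Y y₀ ⊆ Metric.closedBall (0 : Fin D.N → ℂ) (‖y₀‖ / a) := by
    intro x hx
    rw [mem_closedBall_zero_iff, ← hx.2]
    exact hbd x hx.1
  obtain ⟨x, _, hx⟩ := Set.Infinite.exists_accPt_of_subset_isCompact hinf hK hsub
  rw [accPt_iff_frequently] at hx
  have hxcl : x ∈ closure (D.fb Y y₀) := by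
    rw [mem_closure_iff_frequently]
    exact hx.mono fun z hz => hz.2
  have hYx : Y x = y₀ := by
    have h1 : IsClosed {z | Y z = y₀} := isClosed_eq (Y_cont D Y) continuous_const
    exact h1.closure_subset_iff.2 (fun z hz => hz.2) hxcl
  have hxO : x ∈ D.O := hcl x (closure_mono (fun z hz => hz.1) hxcl) hYx
  obtain ⟨δ, ζ, hδ, h1, h2⟩ := hloc x ⟨hxO, hYx⟩
  have h3 : ∀ᶠ z in 𝓝 x, ‖z - x‖ < δ := by
    filter_upwards [Metric.ball_mem_nhds x hδ] with z hz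
    rwa [Metric.mem_ball, dist_eq_norm] at hz
  obtain ⟨z, ⟨hzx, hz⟩, hz2⟩ := (hx.and_eventually h3).exists
  apply hzx
  rw [h2 z hz.1 hz2, hz.2, ← hYx, h1]

/-- the covering near a point -/
theorem cover_loc (D : OD) (Y : D.LM) (hY : PJ D Y) (Dc : MvPolynomial (Fin D.m) ℂ)
    (y₀ : Fin D.m → ℂ) (h0 : ev Dc y₀ ≠ 0) (hcl : ∀ x ∈ closure D.O, Y x = y₀ → x ∈ D.O)
    (hloc : ∀ x ∈ D.fb Y y₀, ∃ (ρ δ : ℝ) (ζ : (Fin D.m → ℂ) → (Fin D.N → ℂ)), 0 < ρ ∧ 0 < δ ∧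
      DifferentiableOn ℂ ζ (Metric.ball y₀ ρ) ∧ ζ y₀ = x ∧
      (∀ y ∈ Metric.ball y₀ ρ, ζ y ∈ D.O ∧ Y (ζ y) = y) ∧
      ∀ x' ∈ D.O, ‖x' - x‖ < δ → x' = ζ (Y x')) :
    (D.fb Y y₀).Finite ∧ ∀ n, (D.fb Y y₀).ncard = n → ∃ ρ : ℝ, 0 < ρ ∧
      ∃ ζ : Fin n → (Fin D.m → ℂ) → (Fin D.N → ℂ),
      Metric.ball y₀ ρ ⊆ {y | ev Dc y ≠ 0} ∧
      (∀ i, DifferentiableOn ℂ (ζ i) (Metric.ball y₀ ρ)) ∧
      ∀ y ∈ Metric.ball y₀ ρ, Function.Injective (fun i => ζ i y) ∧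
        D.fb Y y = Set.range fun i => ζ i y := by
  have hfin : (D.fb Y y₀).Finite := by
    refine fb_finite D Y hY y₀ hcl fun x hx => ?_
    obtain ⟨ρ, δ, ζ, _, hδ, _, h4, _, h6⟩ := hloc x hx
    refine ⟨δ, ζ, hδ, ?_, h6⟩
    rw [hx.2]
    exact h4
  refine ⟨hfin, fun n hn => ?_⟩
  obtain ⟨x, hxi, hxr⟩ := number _ hfin n hn
  choose! ρ δ ζ p1 p2 p3 p4 p5 p6 using hloc
  obtain ⟨a, ha, hbd⟩ := fb_bd D Y hY
  have hcont : ∀ x ∈ D.fb Y y₀, ContinuousAt (ζ x) y₀ := fun x hx =>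
    ((p3 x hx).differentiableAt (Metric.ball_mem_nhds _ (p1 x hx))).continuousAt
  have E1 : ∀ᶠ y in 𝓝 y₀, ev Dc y ≠ 0 :=
    (MvPolynomial.continuous_eval Dc).continuousAt.eventually_ne h0
  have E2 : ∀ᶠ y in 𝓝 y₀, ∀ x ∈ D.fb Y y₀, y ∈ Metric.ball y₀ (ρ x) :=
    (eventually_all_finite hfin).2 fun x hx => Metric.ball_mem_nhds _ (p1 x hx)
  have E3 : ∀ᶠ y in 𝓝 y₀, ∀ x ∈ D.fb Y y₀, ∀ x' ∈ D.fb Y y₀, x ≠ x' → ζ x y ≠ ζ x' y := by
    refine (eventually_all_finite hfin).2 fun x hx => (eventually_all_finite hfin).2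
      fun x' hx' => ?_
    by_cases hne : x = x'
    · exact Eventually.of_forall fun y h => absurd hne h
    · have h1 : ζ x y₀ ≠ ζ x' y₀ := by
        rw [p4 x hx, p4 x' hx']
        exact hne
      have h2 : ∀ᶠ y in 𝓝 y₀, ζ x y - ζ x' y ≠ 0 :=
        ((hcont x hx).sub (hcont x' hx')).eventually_ne (sub_ne_zero.2 h1)
      exact h2.mono fun y hy _ => sub_ne_zero.1 hy
  have E4 : ∀ᶠ y in 𝓝 y₀, ∀ x' ∈ D.fb Y y, ∃ x ∈ D.fb Y y₀, x' = ζ x y := by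
    by_contra hcon
    rw [not_eventually] at hcon
    obtain ⟨y, hy, hp⟩ := exists_seq_forall_of_frequently hcon
    have hp' : ∀ n, ∃ x', x' ∈ D.fb Y (y n) ∧ ∀ x ∈ D.fb Y y₀, x' ≠ ζ x (y n) := by
      intro n
      have := hp n
      push Not at this
      obtain ⟨x', h1, h2⟩ := this
      exact ⟨x', h1, h2⟩
    choose x' hx' hne using hp'
    have hb : ∀ᶠ n in atTop, ‖y n‖ < ‖y₀‖ + 1 :=
      hy.norm.eventually_lt_const (by linarith)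
    have hb2 : ∀ᶠ n in atTop, x' n ∈ Metric.closedBall (0 : Fin D.N → ℂ)
        ((‖y₀‖ + 1) / a) := by
      refine hb.mono fun n hn => ?_
      rw [mem_closedBall_zero_iff]
      refine (hbd _ (hx' n).1).trans ?_
      rw [(hx' n).2]
      exact div_le_div_of_nonneg_right hn.le ha.le
    obtain ⟨z, _, φ, hφ, hz⟩ := tendsto_subseq_of_frequently_bounded
      Metric.isBounded_closedBall hb2.frequently
    have hzcl : z ∈ closure D.O :=
      mem_closure_of_tendsto hz (Eventually.of_forall fun n => (hx' (φ n)).1)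
    have hYz : Y z = y₀ := by
      have h1 : Tendsto (fun n => Y ((x' ∘ φ) n)) atTop (𝓝 (Y z)) :=
        ((Y_cont D Y).tendsto z).comp hz
      have h2 : (fun n => Y ((x' ∘ φ) n)) = y ∘ φ := by
        funext n
        exact (hx' (φ n)).2
      rw [h2] at h1
      exact tendsto_nhds_unique h1 (hy.comp hφ.tendsto_atTop)
    have hzS : z ∈ D.fb Y y₀ := ⟨hcl z hzcl hYz, hYz⟩
    have h3 : ∀ᶠ n in atTop, ‖(x' ∘ φ) n - z‖ < δ z := by
      have h4 := hz (Metric.ball_mem_nhds z (p2 z hzS))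
      filter_upwards [h4] with n hn
      rwa [Set.mem_preimage, Metric.mem_ball, dist_eq_norm] at hn
    obtain ⟨n, hn⟩ := h3.exists
    have h5 := p6 z hzS _ (hx' (φ n)).1 hn
    apply hne (φ n) z hzS
    rw [(hx' (φ n)).2] at h5
    exact h5
  obtain ⟨r, hr, hball⟩ := Metric.eventually_nhds_iff_ball.1 (E1.and (E2.and (E3.and E4)))
  have hmem : ∀ i, x i ∈ D.fb Y y₀ := fun i => by
    rw [← hxr]
    exact ⟨i, rfl⟩
  refine ⟨r, hr, fun i => ζ (x i), fun y hy => (hball y hy).1, fun i => ?_, fun y hy => ?_⟩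
  · exact (p3 _ (hmem i)).mono fun y hy => (hball y hy).2.1 _ (hmem i)
  · obtain ⟨_, b2, b3, b4⟩ := hball y hy
    refine ⟨?_, ?_⟩
    · intro i j hij
      by_contra hne
      exact b3 _ (hmem i) _ (hmem j) (fun h => hne (hxi h)) hij
    · ext z
      rw [Set.mem_range]
      constructor
      · intro hz
        obtain ⟨w, hw, hzw⟩ := b4 z hz
        rw [← hxr] at hw
        obtain ⟨i, hi⟩ := hw
        refine ⟨i, ?_⟩
        beta_reduce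
        rw [hi, hzw]
      · rintro ⟨i, rfl⟩
        exact p5 _ (hmem i) y (b2 _ (hmem i))

/-- MODULE HFI -/
theorem hHFI (h1 : StHCN) (h2 : StHDN) : StHFI := by
  intro D hD Y Dc hY hDc H
  obtain ⟨_, _, hdn⟩ := h2 D hD Y hY
  have hcl : ∀ y₀, ev Dc y₀ ≠ 0 → ∀ x ∈ closure D.O, Y x = y₀ → x ∈ D.O := by
    intro y₀ hy₀ x hx hxy
    exact (H x hx (by rwa [hxy])).1
  have hloc : ∀ y₀, ev Dc y₀ ≠ 0 → ∀ x ∈ D.fb Y y₀,
      ∃ (ρ δ : ℝ) (ζ : (Fin D.m → ℂ) → (Fin D.N → ℂ)), 0 < ρ ∧ 0 < δ ∧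
      DifferentiableOn ℂ ζ (Metric.ball y₀ ρ) ∧ ζ y₀ = x ∧
      (∀ y ∈ Metric.ball y₀ ρ, ζ y ∈ D.O ∧ Y (ζ y) = y) ∧
      ∀ x' ∈ D.O, ‖x' - x‖ < δ → x' = ζ (Y x') := by
    intro y₀ hy₀ x hx
    obtain ⟨c, hc⟩ := hD.charts x hx.1
    have hinj := (H x (subset_closure hx.1) (by rwa [hx.2])).2 c hc
    have := loc_sec D Y x c hc hinj
    rwa [hx.2] at this
  have hcov := fun y₀ (hy₀ : ev Dc y₀ ≠ 0) =>
    cover_loc D Y hY Dc y₀ hy₀ (hcl y₀ hy₀) (hloc y₀ hy₀)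
  -- a point of the orbit
  obtain ⟨z₀, hz₀, _⟩ := hY.rk
  have hO : D.ph z₀ ∈ D.O := hD.phO z₀ hz₀
  obtain ⟨x₁, hx₁, hx₁'⟩ : ∃ x₁ ∈ D.O, ev Dc (Y x₁) ≠ 0 := by
    have h3 := hdn Dc hDc hO
    have h4 : ({x | x ∈ D.O ∧ ev Dc (Y x) ≠ 0} : Set (Fin D.N → ℂ)).Nonempty :=
      closure_nonempty_iff.1 ⟨_, h3⟩
    obtain ⟨x₁, hx₁⟩ := h4
    exact ⟨x₁, hx₁.1, hx₁.2⟩
  have hcount : ContinuousOn (fun y => (D.fb Y y).ncard) {y : Fin D.m → ℂ | ev Dc y ≠ 0} := by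
    intro y₀ hy₀
    refine ContinuousAt.continuousWithinAt ?_
    obtain ⟨_, h3⟩ := hcov y₀ hy₀
    obtain ⟨ρ, hρ, ζ, _, _, h4⟩ := h3 _ rfl
    have h5 : (fun y => (D.fb Y y).ncard) =ᶠ[𝓝 y₀] fun _ => (D.fb Y y₀).ncard := by
      filter_upwards [Metric.ball_mem_nhds y₀ hρ] with y hy
      obtain ⟨h6, h7⟩ := h4 y hy
      rw [h7, ← Set.image_univ, Set.ncard_image_of_injective _ h6, Set.ncard_univ,
        Nat.card_eq_fintype_card, Fintype.card_fin]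
    exact continuousAt_const.congr h5.symm
  have hconst : ∀ y₀, ev Dc y₀ ≠ 0 → (D.fb Y y₀).ncard = (D.fb Y (Y x₁)).ncard :=
    fun y₀ hy₀ => (h1 D.m Dc hDc).constant hcount hy₀ hx₁'
  refine ⟨(D.fb Y (Y x₁)).ncard, hY, hDc, ?_, fun x hx hx' => (H x hx hx').1, ?_, ?_⟩
  · have h3 := (hcov (Y x₁) hx₁').1
    rw [Set.ncard_pos h3]
    exact ⟨x₁, hx₁, rfl⟩
  · intro y₀ hy₀
    exact (hcov y₀ hy₀).2 _ (hconst y₀ hy₀)
  · intro Dc' hDc'
    exact hdn Dc' hDc'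

end Pool.Agent.Helper97.KP
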