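import Pool.Agent.Helper52.KP.StL

/-! # Project KP, chapter L, module DEN: density of test forms in the graph norm -/

set_option autoImplicit false

namespace Pool.Agent.Helper97.KP

open MeasureTheory Filter Pool.Agent.Helper52.KP
open scoped ContDiff ComplexOrder Topology

section basics

variable {m : ℕ} {ψ : (Fin m → ℂ) → ℝ}

/-- a sequence in the weighted space which tends to zero -/
def Z (ψ : (Fin m → ℂ) → ℝ) (f : ℕ → (Fin m → ℂ) → ℂ) : Prop :=
  (∀ i, L2 Set.univ ψ (f i)) ∧ Tendsto (fun i => nrm Set.univ ψ (f i)) atTop (𝓝 0)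

lemma nrm_nonneg (f : (Fin m → ℂ) → ℂ) : 0 ≤ nrm Set.univ ψ f := by
  unfold nrm
  exact integral_nonneg fun z => by positivity

lemma L2.bd (hψ : Continuous ψ) {f g : (Fin m → ℂ) → ℂ} (hf : L2 Set.univ ψ f)
    (hg : AEStronglyMeasurable g volume) (C : ℝ) (h : ∀ z, ‖g z‖ ≤ C * ‖f z‖) :
    L2 Set.univ ψ g := by
  obtain ⟨h1, h2⟩ := hf
  unfold L2
  rw [Measure.restrict_univ] at *
  rw [integrableOn_univ] at *
  refine ⟨hg, ?_⟩
  refine Integrable.mono' (h2.const_mul (C ^ 2)) ?_ ?_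
  · exact (hg.norm.pow 2).mul (Real.continuous_exp.comp hψ.neg).aestronglyMeasurable
  · refine ae_of_all _ fun z => ?_
    have h3 := h z
    have h4 : ‖g z‖ ^ 2 ≤ C ^ 2 * ‖f z‖ ^ 2 := by
      rw [← mul_pow]
      exact pow_le_pow_left₀ (norm_nonneg _) h3 2
    have h5 : 0 ≤ ‖g z‖ ^ 2 * Real.exp (-ψ z) := by positivity
    rw [Real.norm_of_nonneg h5, ← mul_assoc]
    exact mul_le_mul_of_nonneg_right h4 (Real.exp_pos _).le

lemma nrm_bd (_hψ : Continuous ψ) {f g : (Fin m → ℂ) → ℂ} (hf : L2 Set.univ ψ f)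
    (C : ℝ) (h : ∀ z, ‖g z‖ ≤ C * ‖f z‖) :
    nrm Set.univ ψ g ≤ C ^ 2 * nrm Set.univ ψ f := by
  obtain ⟨h1, h2⟩ := hf
  unfold nrm
  rw [← integral_const_mul]
  refine integral_mono_of_nonneg ?_ (h2.const_mul _) ?_
  · exact ae_of_all _ fun z => by positivity
  · refine ae_of_all _ fun z => ?_
    have h3 := h z
    have h4 : ‖g z‖ ^ 2 ≤ C ^ 2 * ‖f z‖ ^ 2 := by
      rw [← mul_pow]
      exact pow_le_pow_left₀ (norm_nonneg _) h3 2
    simp only
    rw [← mul_assoc]
    exact mul_le_mul_of_nonneg_right h4 (Real.exp_pos _).le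

lemma L2.add' (hψ : Continuous ψ) {f g : (Fin m → ℂ) → ℂ} (hf : L2 Set.univ ψ f)
    (hg : L2 Set.univ ψ g) : L2 Set.univ ψ (fun z => f z + g z) := by
  obtain ⟨h1, h2⟩ := hf
  obtain ⟨h3, h4⟩ := hg
  refine ⟨h1.add h3, ?_⟩
  refine Integrable.mono' ((h2.const_mul 2).add (h4.const_mul 2)) ?_ ?_
  · exact ((h1.add h3).norm.pow 2).mul
      (Real.continuous_exp.comp hψ.neg).aestronglyMeasurable
  · refine ae_of_all _ fun z => ?_
    have h5 : 0 ≤ ‖f z + g z‖ ^ 2 * Real.exp (-ψ z) := by positivity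
    rw [Real.norm_of_nonneg h5]
    simp only [Pi.add_apply]
    have h6 : ‖f z + g z‖ ^ 2 ≤ 2 * ‖f z‖ ^ 2 + 2 * ‖g z‖ ^ 2 := by
      have := norm_add_le (f z) (g z)
      nlinarith [sq_nonneg (‖f z‖ - ‖g z‖), norm_nonneg (f z + g z), norm_nonneg (f z),
        norm_nonneg (g z)]
    have := mul_le_mul_of_nonneg_right h6 (Real.exp_pos (-ψ z)).le
    linarith

lemma nrm_add (_hψ : Continuous ψ) {f g : (Fin m → ℂ) → ℂ} (hf : L2 Set.univ ψ f)
    (hg : L2 Set.univ ψ g) :
    nrm Set.univ ψ (fun z => f z + g z) ≤ 2 * nrm Set.univ ψ f + 2 * nrm Set.univ ψ g := by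
  obtain ⟨h1, h2⟩ := hf
  obtain ⟨h3, h4⟩ := hg
  unfold nrm
  rw [← integral_const_mul, ← integral_const_mul, ← integral_add (h2.const_mul 2)
    (h4.const_mul 2)]
  refine integral_mono_of_nonneg ?_ ((h2.const_mul 2).add (h4.const_mul 2)) ?_
  · exact ae_of_all _ fun z => by positivity
  · refine ae_of_all _ fun z => ?_
    have h6 : ‖f z + g z‖ ^ 2 ≤ 2 * ‖f z‖ ^ 2 + 2 * ‖g z‖ ^ 2 := by
      have := norm_add_le (f z) (g z)
      nlinarith [sq_nonneg (‖f z‖ - ‖g z‖), norm_nonneg (f z + g z), norm_nonneg (f z),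
        norm_nonneg (g z)]
    have := mul_le_mul_of_nonneg_right h6 (Real.exp_pos (-ψ z)).le
    simp only
    linarith

lemma L2.zero' : L2 Set.univ ψ (fun _ : Fin m → ℂ => (0 : ℂ)) := by
  refine ⟨aestronglyMeasurable_const, ?_⟩
  simp

lemma L2.sum' (hψ : Continuous ψ) {ι : Type*} (s : Finset ι) (f : ι → (Fin m → ℂ) → ℂ)
    (hf : ∀ i ∈ s, L2 Set.univ ψ (f i)) : L2 Set.univ ψ (fun z => ∑ i ∈ s, f i z) := by
  classical
  induction s using Finset.induction_on with
  | empty => simpa using L2.zero'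
  | insert a s ha ih =>
    simp only [Finset.sum_insert ha]
    exact L2.add' hψ (hf a (Finset.mem_insert_self a s))
      (ih fun i hi => hf i (Finset.mem_insert_of_mem hi))

lemma Z.add (hψ : Continuous ψ) {f g : ℕ → (Fin m → ℂ) → ℂ} (hf : Z ψ f) (hg : Z ψ g) :
    Z ψ (fun i z => f i z + g i z) := by
  refine ⟨fun i => L2.add' hψ (hf.1 i) (hg.1 i), ?_⟩
  have h : Tendsto (fun i => 2 * nrm Set.univ ψ (f i) + 2 * nrm Set.univ ψ (g i)) atTop
      (𝓝 0) := by
    have := (hf.2.const_mul 2).add (hg.2.const_mul 2)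
    simpa using this
  exact squeeze_zero (fun i => nrm_nonneg _) (fun i => nrm_add hψ (hf.1 i) (hg.1 i)) h

lemma Z.zero : Z ψ (fun (_ : ℕ) (_ : Fin m → ℂ) => (0 : ℂ)) := by
  refine ⟨fun i => L2.zero', ?_⟩
  have : (fun _ : ℕ => nrm Set.univ ψ (fun _ : Fin m → ℂ => (0 : ℂ))) = fun _ => 0 := by
    funext i
    simp [nrm]
  rw [this]
  exact tendsto_const_nhds

lemma Z.sum (hψ : Continuous ψ) {ι : Type*} (s : Finset ι) (f : ι → ℕ → (Fin m → ℂ) → ℂ)
    (hf : ∀ j ∈ s, Z ψ (f j)) : Z ψ (fun i z => ∑ j ∈ s, f j i z) := by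
  classical
  induction s using Finset.induction_on with
  | empty => simpa using Z.zero
  | insert a s ha ih =>
    simp only [Finset.sum_insert ha]
    exact Z.add hψ (hf a (Finset.mem_insert_self a s))
      (ih fun i hi => hf i (Finset.mem_insert_of_mem hi))

/-- domination with constants that tend to zero or are bounded -/
lemma Z.bd (hψ : Continuous ψ) {f g : ℕ → (Fin m → ℂ) → ℂ} (hf : Z ψ f)
    (hg : ∀ i, AEStronglyMeasurable (g i) volume) (C : ℝ)
    (h : ∀ i z, ‖g i z‖ ≤ C * ‖f i z‖) : Z ψ g := by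
  refine ⟨fun i => L2.bd hψ (hf.1 i) (hg i) C (h i), ?_⟩
  have h1 : Tendsto (fun i => C ^ 2 * nrm Set.univ ψ (f i)) atTop (𝓝 0) := by
    simpa using hf.2.const_mul (C ^ 2)
  exact squeeze_zero (fun i => nrm_nonneg _) (fun i => nrm_bd hψ (hf.1 i) C (h i)) h1

/-- domination with constants that tend to zero -/
lemma Z.small (hψ : Continuous ψ) {f : (Fin m → ℂ) → ℂ} {g : ℕ → (Fin m → ℂ) → ℂ}
    (hf : L2 Set.univ ψ f) (hg : ∀ i, AEStronglyMeasurable (g i) volume) (C : ℕ → ℝ)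
    (hC : Tendsto C atTop (𝓝 0)) (h : ∀ i z, ‖g i z‖ ≤ C i * ‖f z‖) : Z ψ g := by
  refine ⟨fun i => L2.bd hψ hf (hg i) (C i) (h i), ?_⟩
  have h1 : Tendsto (fun i => C i ^ 2 * nrm Set.univ ψ f) atTop (𝓝 0) := by
    simpa using (hC.pow 2).mul_const (nrm Set.univ ψ f)
  exact squeeze_zero (fun i => nrm_nonneg _) (fun i => nrm_bd hψ hf (C i) (h i)) h1

/-- from unweighted to weighted, on a fixed ball -/
lemma L2_of_memLp (hψ : Continuous ψ) {f : (Fin m → ℂ) → ℂ} (hf : MemLp f 2 volume)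
    {B : ℝ} (hB : ∀ z, f z ≠ 0 → Real.exp (-ψ z) ≤ B) :
    L2 Set.univ ψ f ∧ nrm Set.univ ψ f ≤ B * ∫ z, ‖f z‖ ^ 2 := by
  have h1 : Integrable (fun z => ‖f z‖ ^ 2) volume := by
    have := (memLp_two_iff_integrable_sq_norm hf.1).1 hf
    exact this
  have h2 : ∀ z, ‖f z‖ ^ 2 * Real.exp (-ψ z) ≤ B * ‖f z‖ ^ 2 := by
    intro z
    by_cases hz : f z = 0
    · simp [hz]
    · rw [mul_comm]
      exact mul_le_mul_of_nonneg_right (hB z hz) (by positivity)
  have hm : AEStronglyMeasurable (fun z => ‖f z‖ ^ 2 * Real.exp (-ψ z)) volume :=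
    (hf.1.norm.pow 2).mul (Real.continuous_exp.comp hψ.neg).aestronglyMeasurable
  refine ⟨⟨?_, ?_⟩, ?_⟩
  · rw [Measure.restrict_univ]
    exact hf.1
  · rw [integrableOn_univ]
    refine Integrable.mono' (h1.const_mul B) hm ?_
    refine ae_of_all _ fun z => ?_
    rw [Real.norm_of_nonneg (by positivity)]
    exact h2 z
  · unfold nrm
    rw [Measure.restrict_univ, ← integral_const_mul]
    exact integral_mono_of_nonneg (ae_of_all _ fun z => by positivity) (h1.const_mul B)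
      (ae_of_all _ h2)

lemma Z_of_compact (hψ : Continuous ψ) (g : (Fin m → ℂ) → ℂ) (hg : Continuous g)
    (f : ℕ → (Fin m → ℂ) → ℂ) (hf : ∀ i, MemLp (f i) 2 volume) (R : ℝ)
    (hR : ∀ i z, R < ‖z‖ → f i z = 0)
    (h0 : Tendsto (fun i => ∫ z, ‖f i z‖ ^ 2) atTop (𝓝 0)) :
    Z ψ (fun i z => g z * f i z) := by
  have hc : IsCompact (Metric.closedBall (0 : Fin m → ℂ) R) := isCompact_closedBall 0 R
  obtain ⟨B, hB⟩ := hc.exists_bound_of_continuousOn
    (Real.continuous_exp.comp hψ.neg).continuousOn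
  obtain ⟨G, hG⟩ := hc.exists_bound_of_continuousOn hg.continuousOn
  have hmem : ∀ i z, f i z ≠ 0 → z ∈ Metric.closedBall (0 : Fin m → ℂ) R := by
    intro i z hz
    rw [mem_closedBall_zero_iff]
    by_contra h
    exact hz (hR i z (not_le.1 h))
  have h1 : ∀ i, L2 Set.univ ψ (f i) ∧ nrm Set.univ ψ (f i) ≤ B * ∫ z, ‖f i z‖ ^ 2 := by
    intro i
    refine L2_of_memLp hψ (hf i) fun z hz => ?_
    have := hB z (hmem i z hz)
    simp only [Function.comp_apply] at this
    rwa [Real.norm_of_nonneg (Real.exp_pos _).le] at this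
  have h2 : Z ψ f := by
    refine ⟨fun i => (h1 i).1, ?_⟩
    have : Tendsto (fun i => B * ∫ z, ‖f i z‖ ^ 2) atTop (𝓝 0) := by
      simpa using h0.const_mul B
    exact squeeze_zero (fun i => nrm_nonneg _) (fun i => (h1 i).2) this
  refine Z.bd hψ h2 (fun i => hg.aestronglyMeasurable.mul (hf i).1) G fun i z => ?_
  rw [norm_mul]
  by_cases hz : f i z = 0
  · simp [hz]
  · exact mul_le_mul_of_nonneg_right (hG z (hmem i z hz)) (norm_nonneg _)

end basics

section moll

variable {m : ℕ} {ψ : (Fin m → ℂ) → ℝ}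

lemma tst_shift {φ : ℕ → (Fin m → ℂ) → ℝ} (hφ : Mol φ) (i : ℕ) (z : Fin m → ℂ) :
    Tst Set.univ (fun x => (φ i (z - x) : ℂ)) := by
  refine ⟨?_, ?_, Set.subset_univ _⟩
  · exact Complex.ofRealCLM.contDiff.comp ((hφ.smooth i).comp (contDiff_const.sub contDiff_id))
  · refine HasCompactSupport.intro (isCompact_closedBall z 1) fun x hx => ?_
    rw [Metric.mem_closedBall, dist_eq_norm, not_le, norm_sub_rev] at hx
    rw [hφ.supp i (z - x) (lt_of_le_of_lt ?_ hx)]
    · simp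
    · rw [div_le_one (by positivity)]
      have : (0 : ℝ) ≤ i := Nat.cast_nonneg i
      linarith

lemma cv_supp {φ : ℕ → (Fin m → ℂ) → ℝ} (hφ : Mol φ) (i : ℕ) (f : (Fin m → ℂ) → ℂ)
    {R : ℝ} (hR : ∀ z, R < ‖z‖ → f z = 0) (z : Fin m → ℂ) (hz : R + 1 < ‖z‖) :
    cv (φ i) f z = 0 := by
  unfold cv
  rw [← integral_zero (Fin m → ℂ) ℂ (μ := volume)]
  refine integral_congr_ae (ae_of_all _ fun x => ?_)
  simp only
  by_cases hx : R < ‖x‖
  · rw [hR x hx, mul_zero]
  · have h1 : 1 / ((i : ℝ) + 1) < ‖z - x‖ := by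
      have h2 : 1 / ((i : ℝ) + 1) ≤ 1 := by
        rw [div_le_one (by positivity)]
        have : (0 : ℝ) ≤ i := Nat.cast_nonneg i
        linarith
      have h3 : ‖z‖ - ‖x‖ ≤ ‖z - x‖ := norm_sub_norm_le z x
      linarith [not_lt.1 hx]
    rw [hφ.supp i _ h1]
    simp

/-- the conclusion of `StMO2` for functions supported in a ball -/
lemma Z_cv (h5 : StMO2) (hψ : Continuous ψ) {φ : ℕ → (Fin m → ℂ) → ℝ} (hφ : Mol φ)
    (g : (Fin m → ℂ) → ℂ) (hg : Continuous g) (f : (Fin m → ℂ) → ℂ) (hf : MemLp f 2 volume)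
    (R : ℝ) (hR : ∀ z, R < ‖z‖ → f z = 0) :
    Z ψ (fun i z => g z * (cv (φ i) f z - f z)) := by
  obtain ⟨h1, h2⟩ := h5 m φ hφ f hf
  refine Z_of_compact hψ g hg _ (fun i => (h1 i).sub hf) (R + 1) (fun i z hz => ?_) h2
  rw [cv_supp hφ i f hR z hz, hR z (by linarith), sub_zero]

theorem moll (h4 : StMO1) (h5 : StMO2) {φ : ℕ → (Fin m → ℂ) → ℝ} (hφ : Mol φ)
    (hψ : ContDiff ℝ ∞ ψ) (hψ1 : ∀ j, Continuous (dz j (cf ψ)))
    (w : Fin m → (Fin m → ℂ) → ℂ) (b : (Fin m → ℂ) → ℂ)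
    (c : Fin m → Fin m → (Fin m → ℂ) → ℂ) (R : ℝ)
    (hw : ∀ j, MemLp (w j) 2 volume) (hwc : ∀ j, HasCompactSupport (w j))
    (hwR : ∀ j z, R < ‖z‖ → w j z = 0)
    (hb : MemLp b 2 volume) (hbR : ∀ z, R < ‖z‖ → b z = 0)
    (hc : ∀ j k, MemLp (c j k) 2 volume) (hcR : ∀ j k z, R < ‖z‖ → c j k z = 0)
    (W1 : ∀ f, Tst Set.univ f → ∫ z, b z * f z = - ∑ j, ∫ z, w j z * dz j f z)
    (W2 : ∀ f, Tst Set.univ f → ∀ j k, ∫ z, c j k z * f z =
      - ((∫ z, w k z * db j f z) - ∫ z, w j z * db k f z)) :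
    ∃ η : ℕ → Fin m → (Fin m → ℂ) → ℂ, (∀ i j, Tst Set.univ (η i j)) ∧
      (∀ j, Z ψ (fun i z => η i j z - w j z)) ∧
      Z ψ (fun i z => Tad ψ (η i) z - (- b z + ∑ j, dz j (cf ψ) z * w j z)) ∧
      ∀ j k, Z ψ (fun i z => db j (η i k) z - db k (η i j) z - c j k z) := by
  have hli : ∀ j, LocallyIntegrable (w j) volume := fun j =>
    (hw j).locallyIntegrable (by norm_num)
  have hcψ := hψ.continuous
  have hdz : ∀ i z, ∑ j, dz j (cv (φ i) (w j)) z = cv (φ i) b z := by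
    intro i z
    have h1 := W1 _ (tst_shift hφ i z)
    have h2 : cv (φ i) b z = ∫ x, b x * (φ i (z - x) : ℂ) := by
      unfold cv
      refine integral_congr_ae (ae_of_all _ fun x => ?_)
      simp only
      ring
    rw [h2, h1, ← Finset.sum_neg_distrib]
    refine Finset.sum_congr rfl fun j _ => ?_
    obtain ⟨_, _, h7⟩ := h4 m φ hφ (w j) (hli j) i
    obtain ⟨h8, _, h9, _⟩ := h7 j z
    rw [h8, ← integral_neg]
    refine integral_congr_ae (ae_of_all _ fun x => ?_)
    simp only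
    rw [h9 x]
    ring
  have hdb : ∀ i z j k, db j (cv (φ i) (w k)) z - db k (cv (φ i) (w j)) z =
      cv (φ i) (c j k) z := by
    intro i z j k
    have h1 := W2 _ (tst_shift hφ i z) j k
    have h2 : cv (φ i) (c j k) z = ∫ x, c j k x * (φ i (z - x) : ℂ) := by
      unfold cv
      refine integral_congr_ae (ae_of_all _ fun x => ?_)
      simp only
      ring
    have h3 : ∀ j k, db j (cv (φ i) (w k)) z =
        - ∫ x, w k x * db j (fun y => (φ i (z - y) : ℂ)) x := by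
      intro j k
      obtain ⟨_, _, h7⟩ := h4 m φ hφ (w k) (hli k) i
      obtain ⟨_, h8, _, h9⟩ := h7 j z
      rw [h8, ← integral_neg]
      refine integral_congr_ae (ae_of_all _ fun x => ?_)
      simp only
      rw [h9 x]
      ring
    rw [h2, h1, h3 j k, h3 k j]
    ring
  refine ⟨fun i j => cv (φ i) (w j), ?_, ?_, ?_, ?_⟩
  · intro i j
    obtain ⟨h6, h7, _⟩ := h4 m φ hφ (w j) (hli j) i
    exact ⟨h6, h7 (hwc j), Set.subset_univ _⟩
  · intro j
    have := Z_cv h5 hcψ hφ (fun _ => 1) continuous_const (w j) (hw j) R (hwR j)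
    simpa using this
  · have hA := Z_cv h5 hcψ hφ (fun _ => -1) continuous_const b hb R hbR
    have hB := Z.sum hcψ Finset.univ
      (fun j i z => dz j (cf ψ) z * (cv (φ i) (w j) z - w j z))
      (fun j _ => Z_cv h5 hcψ hφ (dz j (cf ψ)) (hψ1 j) (w j) (hw j) R (hwR j))
    have hC := Z.add hcψ hA hB
    have : (fun (i : ℕ) z => Tad ψ (fun j => cv (φ i) (w j)) z -
        (- b z + ∑ j, dz j (cf ψ) z * w j z)) =
        fun (i : ℕ) z => -1 * (cv (φ i) b z - b z) +
          ∑ j, dz j (cf ψ) z * (cv (φ i) (w j) z - w j z) := by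
      funext i z
      unfold Tad
      rw [Finset.sum_sub_distrib, hdz i z]
      simp only [mul_sub, Finset.sum_sub_distrib]
      ring
    rw [this]
    exact hC
  · intro j k
    have := Z_cv h5 hcψ hφ (fun _ => 1) continuous_const (c j k) (hc j k) R (hcR j k)
    have h2 : (fun (i : ℕ) z => db j (cv (φ i) (w k)) z - db k (cv (φ i) (w j)) z - c j k z) =
        fun (i : ℕ) z => 1 * (cv (φ i) (c j k) z - c j k z) := by
      funext i z
      rw [hdb i z j k, one_mul]
    rw [h2]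
    exact this

end moll

section cutoff

variable {m : ℕ} {ψ : (Fin m → ℂ) → ℝ}

/-- a bump function on the chart -/
noncomputable def bmp (m : ℕ) : ContDiffBump (0 : Fin m → ℂ) := ⟨1, 2, one_pos, one_lt_two⟩

/-- the bump function with complex values -/
noncomputable def bc (m : ℕ) (z : Fin m → ℂ) : ℂ := ((bmp m z : ℝ) : ℂ)

/-- the cutoff functions -/
noncomputable def ct (m : ℕ) (N : ℕ) (z : Fin m → ℂ) : ℂ := bc m ((1 / ((N : ℝ) + 1)) • z)

lemma bc_smooth : ContDiff ℝ ∞ (bc m) :=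
  Complex.ofRealCLM.contDiff.comp (bmp m).contDiff

lemma ct_smooth (N : ℕ) : ContDiff ℝ ∞ (ct m N) :=
  bc_smooth.comp (contDiff_const_smul _)

lemma ct_zero (N : ℕ) (z : Fin m → ℂ) (hz : 2 * ((N : ℝ) + 1) < ‖z‖) : ct m N z = 0 := by
  unfold ct bc
  have h0 : (0 : ℝ) < (N : ℝ) + 1 := by positivity
  rw [(bmp m).zero_of_le_dist]
  · simp
  · rw [dist_zero_right, norm_smul, Real.norm_of_nonneg (by positivity), one_div,
      le_inv_mul_iff₀ h0]
    show ((N : ℝ) + 1) * 2 ≤ ‖z‖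
    linarith

lemma ct_cpt (N : ℕ) : HasCompactSupport (ct m N) := by
  refine HasCompactSupport.intro (isCompact_closedBall 0 (2 * ((N : ℝ) + 1))) fun z hz => ?_
  rw [mem_closedBall_zero_iff, not_le] at hz
  exact ct_zero N z hz

lemma ct_star (N : ℕ) (z : Fin m → ℂ) : star (ct m N z) = ct m N z := by
  unfold ct bc
  exact Complex.conj_ofReal _

lemma ct_le (N : ℕ) (z : Fin m → ℂ) : ‖ct m N z‖ ≤ 1 := by
  unfold ct bc
  rw [Complex.norm_real, Real.norm_of_nonneg (bmp m).nonneg]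
  exact (bmp m).le_one

lemma ct_one (z : Fin m → ℂ) : ∀ᶠ N in atTop, ct m N z = 1 := by
  obtain ⟨N₀, hN₀⟩ := exists_nat_ge ‖z‖
  filter_upwards [eventually_ge_atTop N₀] with N hN
  unfold ct bc
  have h0 : (0 : ℝ) < (N : ℝ) + 1 := by positivity
  have h1 : (N₀ : ℝ) ≤ N := by exact_mod_cast hN
  rw [(bmp m).one_of_mem_closedBall]
  · simp
  · rw [mem_closedBall_zero_iff, norm_smul, Real.norm_of_nonneg (by positivity), one_div,
      inv_mul_le_iff₀ h0]
    show ‖z‖ ≤ ((N : ℝ) + 1) * 1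
    linarith

lemma single_norm (j : Fin m) (c : ℂ) (hc : ‖c‖ = 1) :
    ‖(Pi.single j c : Fin m → ℂ)‖ ≤ 1 := by
  rw [pi_norm_le_iff_of_nonneg zero_le_one]
  intro i
  by_cases h : i = j
  · subst h
    rw [Pi.single_eq_same, hc]
  · rw [Pi.single_eq_of_ne h]
    simp

lemma dz_le (j : Fin m) (f : (Fin m → ℂ) → ℂ) (z : Fin m → ℂ) :
    ‖dz j f z‖ ≤ ‖fderiv ℝ f z‖ ∧ ‖db j f z‖ ≤ ‖fderiv ℝ f z‖ := by
  have h1 : ‖fderiv ℝ f z (Pi.single j 1)‖ ≤ ‖fderiv ℝ f z‖ := by
    refine ((fderiv ℝ f z).le_opNorm _).trans ?_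
    exact mul_le_of_le_one_right (norm_nonneg _) (single_norm j 1 (by simp))
  have h2 : ‖fderiv ℝ f z (Pi.single j Complex.I)‖ ≤ ‖fderiv ℝ f z‖ := by
    refine ((fderiv ℝ f z).le_opNorm _).trans ?_
    exact mul_le_of_le_one_right (norm_nonneg _) (single_norm j _ (by simp))
  have h3 : ‖Complex.I * fderiv ℝ f z (Pi.single j Complex.I)‖ ≤ ‖fderiv ℝ f z‖ := by
    rw [norm_mul, Complex.norm_I, one_mul]
    exact h2
  unfold dz db
  constructor
  · rw [norm_div, Complex.norm_ofNat, div_le_iff₀ two_pos]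
    refine (norm_sub_le _ _).trans ?_
    linarith
  · rw [norm_div, Complex.norm_ofNat, div_le_iff₀ two_pos]
    refine (norm_add_le _ _).trans ?_
    linarith

lemma ct_fderiv (m : ℕ) : ∃ C : ℝ, ∀ (N : ℕ) (z : Fin m → ℂ),
    ‖fderiv ℝ (ct m N) z‖ ≤ C * (1 / ((N : ℝ) + 1)) := by
  have h1 : HasCompactSupport (bc m) := by
    refine HasCompactSupport.intro (isCompact_closedBall 0 2) fun z hz => ?_
    rw [mem_closedBall_zero_iff, not_le] at hz
    unfold bc
    rw [(bmp m).zero_of_le_dist]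
    · simp
    · rw [dist_zero_right]
      exact hz.le
  obtain ⟨C, hC⟩ := ((bc_smooth (m := m)).continuous_fderiv
    (by norm_num)).bounded_above_of_compact_support (h1.fderiv ℝ)
  refine ⟨C, fun N z => ?_⟩
  have h2 : fderiv ℝ (ct m N) z = (1 / ((N : ℝ) + 1)) •
      fderiv ℝ (bc m) ((1 / ((N : ℝ) + 1)) • z) := by
    have h3 : DifferentiableAt ℝ (bc m) ((1 / ((N : ℝ) + 1)) • z) :=
      (bc_smooth.differentiable (by norm_num)) _
    have h4 : HasFDerivAt (fun z : Fin m → ℂ => (1 / ((N : ℝ) + 1)) • z)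
        ((1 / ((N : ℝ) + 1)) • ContinuousLinearMap.id ℝ (Fin m → ℂ)) z :=
      ((1 / ((N : ℝ) + 1)) • ContinuousLinearMap.id ℝ (Fin m → ℂ)).hasFDerivAt
    have h5 := (h3.hasFDerivAt.comp z h4).fderiv
    have h6 : ct m N = bc m ∘ fun z : Fin m → ℂ => (1 / ((N : ℝ) + 1)) • z := rfl
    rw [h6, h5]
    ext v
    simp
  rw [h2, norm_smul, Real.norm_of_nonneg (by positivity), mul_comm]
  exact mul_le_mul_of_nonneg_right (hC _) (by positivity)

lemma ct_dz (m : ℕ) : ∃ C : ℝ, ∀ (N : ℕ) (j : Fin m) (z : Fin m → ℂ),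
    ‖dz j (ct m N) z‖ ≤ C * (1 / ((N : ℝ) + 1)) ∧
    ‖db j (ct m N) z‖ ≤ C * (1 / ((N : ℝ) + 1)) := by
  obtain ⟨C, hC⟩ := ct_fderiv m
  exact ⟨C, fun N j z => ⟨(dz_le j _ z).1.trans (hC N z), (dz_le j _ z).2.trans (hC N z)⟩⟩

lemma ct_dz_zero (N : ℕ) (j : Fin m) (z : Fin m → ℂ) (hz : 2 * ((N : ℝ) + 1) < ‖z‖) :
    dz j (ct m N) z = 0 ∧ db j (ct m N) z = 0 := by
  have h1 : ct m N =ᶠ[𝓝 z] fun _ => 0 := by
    have : {x : Fin m → ℂ | 2 * ((N : ℝ) + 1) < ‖x‖} ∈ 𝓝 z :=
      (isOpen_lt continuous_const continuous_norm).mem_nhds hz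
    filter_upwards [this] with x hx
    exact ct_zero N x hx
  have h2 : fderiv ℝ (ct m N) z = 0 := by
    rw [h1.fderiv_eq]
    simp
  unfold dz db
  rw [h2]
  simp

lemma Z_cut (hψ : Continuous ψ) {f : (Fin m → ℂ) → ℂ} (hf : L2 Set.univ ψ f) :
    Z ψ (fun N z => ct m N z * f z - f z) := by
  have hf1 : AEStronglyMeasurable f volume := by
    have := hf.1
    rwa [Measure.restrict_univ] at this
  have hm : ∀ N, AEStronglyMeasurable (fun z => ct m N z * f z - f z) volume := fun N =>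
    ((ct_smooth N).continuous.aestronglyMeasurable.mul hf1).sub hf1
  have hb : ∀ N z, ‖ct m N z * f z - f z‖ ≤ 2 * ‖f z‖ := by
    intro N z
    refine (norm_sub_le _ _).trans ?_
    rw [norm_mul]
    have := mul_le_mul_of_nonneg_right (ct_le N z) (norm_nonneg (f z))
    linarith
  refine ⟨fun N => L2.bd hψ hf (hm N) 2 (hb N), ?_⟩
  have h1 : Tendsto (fun N => ∫ z, ‖ct m N z * f z - f z‖ ^ 2 * Real.exp (-ψ z)) atTop
      (𝓝 (∫ z : Fin m → ℂ, (0 : ℝ))) := by
    have hI : Integrable (fun z => ‖f z‖ ^ 2 * Real.exp (-ψ z)) volume := by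
      have := hf.2
      rwa [integrableOn_univ] at this
    refine tendsto_integral_of_dominated_convergence
      (fun z => 2 ^ 2 * (‖f z‖ ^ 2 * Real.exp (-ψ z))) (fun N => ?_) (hI.const_mul _)
      (fun N => ?_) ?_
    · exact ((hm N).norm.pow 2).mul (Real.continuous_exp.comp hψ.neg).aestronglyMeasurable
    · refine ae_of_all _ fun z => ?_
      rw [Real.norm_of_nonneg (by positivity), ← mul_assoc, ← mul_pow]
      exact mul_le_mul_of_nonneg_right (pow_le_pow_left₀ (norm_nonneg _) (hb N z) 2)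
        (Real.exp_pos _).le
    · refine ae_of_all _ fun z => ?_
      refine tendsto_const_nhds.congr' ?_
      filter_upwards [ct_one z] with N hN
      rw [hN, one_mul, sub_self]
      simp
  rw [integral_zero] at h1
  refine h1.congr fun N => ?_
  unfold nrm
  rw [Measure.restrict_univ]

lemma memLp_of_L2 (hψ : Continuous ψ) {f g : (Fin m → ℂ) → ℂ} (hf : L2 Set.univ ψ f)
    (hg : Continuous g) (hgc : HasCompactSupport g) : MemLp (fun z => g z * f z) 2 volume := by
  have hf1 : AEStronglyMeasurable f volume := by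
    have := hf.1
    rwa [Measure.restrict_univ] at this
  have hI : Integrable (fun z => ‖f z‖ ^ 2 * Real.exp (-ψ z)) volume := by
    have := hf.2
    rwa [integrableOn_univ] at this
  have hm : AEStronglyMeasurable (fun z => g z * f z) volume :=
    hg.aestronglyMeasurable.mul hf1
  rw [memLp_two_iff_integrable_sq_norm hm]
  have hG : Continuous fun z => ‖g z‖ ^ 2 * Real.exp (ψ z) :=
    (hg.norm.pow 2).mul (Real.continuous_exp.comp hψ)
  have hGc : HasCompactSupport fun z => ‖g z‖ ^ 2 * Real.exp (ψ z) := by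
    refine HasCompactSupport.mono hgc fun z hz => ?_
    rw [Function.mem_support] at hz ⊢
    intro h
    rw [h] at hz
    simp at hz
  obtain ⟨C, hC⟩ := hG.bounded_above_of_compact_support hGc
  refine Integrable.mono' (hI.const_mul C) (hm.norm.pow 2) (ae_of_all _ fun z => ?_)
  rw [Real.norm_of_nonneg (by positivity), norm_mul, mul_pow]
  have h1 := hC z
  rw [Real.norm_of_nonneg (by positivity)] at h1
  have h2 : Real.exp (ψ z) * Real.exp (-ψ z) = 1 := by
    rw [← Real.exp_add]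
    simp
  calc ‖g z‖ ^ 2 * ‖f z‖ ^ 2
      = (‖g z‖ ^ 2 * Real.exp (ψ z)) * (‖f z‖ ^ 2 * Real.exp (-ψ z)) := by
        linear_combination (-(‖g z‖ ^ 2 * ‖f z‖ ^ 2)) * h2
    _ ≤ C * (‖f z‖ ^ 2 * Real.exp (-ψ z)) :=
        mul_le_mul_of_nonneg_right h1 (by positivity)

lemma intg (hψ : Continuous ψ) {f g : (Fin m → ℂ) → ℂ} (hf : L2 Set.univ ψ f)
    (hg : Continuous g) (hgc : HasCompactSupport g) : Integrable (fun z => f z * g z) := by
  have hf1 : AEStronglyMeasurable f volume := by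
    have := hf.1
    rwa [Measure.restrict_univ] at this
  have hI : Integrable (fun z => ‖f z‖ ^ 2 * Real.exp (-ψ z)) volume := by
    have := hf.2
    rwa [integrableOn_univ] at this
  have hm : AEStronglyMeasurable (fun z => f z * g z) volume :=
    hf1.mul hg.aestronglyMeasurable
  have hG : Continuous fun z => ‖g z‖ ^ 2 * Real.exp (ψ z) :=
    (hg.norm.pow 2).mul (Real.continuous_exp.comp hψ)
  have hGc : HasCompactSupport fun z => ‖g z‖ ^ 2 * Real.exp (ψ z) := by
    refine HasCompactSupport.mono hgc fun z hz => ?_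
    rw [Function.mem_support] at hz ⊢
    intro h
    rw [h] at hz
    simp at hz
  have hGi : Integrable (fun z => ‖g z‖ ^ 2 * Real.exp (ψ z)) volume :=
    hG.integrable_of_hasCompactSupport hGc
  refine Integrable.mono' (hI.add hGi) hm (ae_of_all _ fun z => ?_)
  simp only [Pi.add_apply]
  rw [norm_mul]
  set s := Real.exp (ψ z / 2) with hs
  have hs0 : 0 < s := Real.exp_pos _
  have h1 : Real.exp (ψ z) = s ^ 2 := by
    rw [hs, ← Real.exp_nat_mul]
    congr 1
    push_cast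
    ring
  have h2 : Real.exp (-ψ z) = (s⁻¹) ^ 2 := by
    rw [Real.exp_neg, h1, inv_pow]
  rw [h1, h2]
  have h3 : s⁻¹ * s = 1 := inv_mul_cancel₀ hs0.ne'
  have h4 : ‖f z‖ * ‖g z‖ = (‖f z‖ * s⁻¹) * (‖g z‖ * s) := by
    linear_combination (-(‖f z‖ * ‖g z‖)) * h3
  rw [h4, ← mul_pow, ← mul_pow]
  have h5 : 0 ≤ ‖f z‖ * s⁻¹ := by positivity
  have h6 : 0 ≤ ‖g z‖ * s := by positivity
  nlinarith [sq_nonneg (‖f z‖ * s⁻¹ - ‖g z‖ * s)]

end cutoff

section main

variable {m : ℕ} {ψ : (Fin m → ℂ) → ℝ}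

lemma meas_of_L2 {f : (Fin m → ℂ) → ℂ} (hf : L2 Set.univ ψ f) :
    AEStronglyMeasurable f volume := by
  have := hf.1
  rwa [Measure.restrict_univ] at this

lemma cont_dz (h1 : StCAL) (j : Fin m) {f : (Fin m → ℂ) → ℂ} (hf : ContDiff ℝ ∞ f) :
    ContDiff ℝ ∞ (dz j f) ∧ ContDiff ℝ ∞ (db j f) := by
  obtain ⟨_, _, _, _, h⟩ := h1 m j j f f 0
  obtain ⟨h2, h3⟩ := h Set.univ isOpen_univ hf.contDiffOn
  exact ⟨contDiffOn_univ.1 h2, contDiffOn_univ.1 h3⟩

lemma smooth_diff {f : (Fin m → ℂ) → ℂ} (hf : ContDiff ℝ ∞ f) (z : Fin m → ℂ) :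
    DifferentiableAt ℝ f z := (hf.differentiable (by norm_num)) z

lemma star_smooth {f : (Fin m → ℂ) → ℂ} (hf : ContDiff ℝ ∞ f) :
    ContDiff ℝ ∞ (fun z => star (f z)) :=
  Complex.conjCLE.contDiff.comp hf

lemma cf_smooth (hψ : ContDiff ℝ ∞ ψ) : ContDiff ℝ ∞ (cf ψ) :=
  Complex.ofRealCLM.contDiff.comp hψ

lemma cf_star (z : Fin m → ℂ) : star (cf ψ z) = cf ψ z := Complex.conj_ofReal _

/-- the derivatives of a real function are conjugate -/
lemma star_db (h1 : StCAL) (j : Fin m) {f : (Fin m → ℂ) → ℂ} (hf : ContDiff ℝ ∞ f)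
    (hr : ∀ z, star (f z) = f z) (z : Fin m → ℂ) : star (db j f z) = dz j f z := by
  obtain ⟨h, _⟩ := h1 m j j f f z
  obtain ⟨_, _, _, _, h5, _⟩ := h (smooth_diff hf z) (smooth_diff hf z)
  rw [← h5]
  have : (fun z => star (f z)) = f := funext hr
  rw [this]

lemma db_mul (h1 : StCAL) (j : Fin m) {f g : (Fin m → ℂ) → ℂ} (hf : ContDiff ℝ ∞ f)
    (hg : ContDiff ℝ ∞ g) (z : Fin m → ℂ) :
    db j (fun z => f z * g z) z = db j f z * g z + f z * db j g z := by
  obtain ⟨h, _⟩ := h1 m j j f g z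
  exact (h (smooth_diff hf z) (smooth_diff hg z)).2.2.2.1

lemma db_star (h1 : StCAL) (j : Fin m) {f : (Fin m → ℂ) → ℂ} (hf : ContDiff ℝ ∞ f)
    (z : Fin m → ℂ) : db j (fun z => star (f z)) z = star (dz j f z) := by
  obtain ⟨h, _⟩ := h1 m j j f f z
  exact (h (smooth_diff hf z) (smooth_diff hf z)).2.2.2.2.2.1

lemma db_exp (h1 : StCAL) (j : Fin m) {f : (Fin m → ℂ) → ℂ} (hf : ContDiff ℝ ∞ f)
    (z : Fin m → ℂ) : db j (fun z => Complex.exp (f z)) z = Complex.exp (f z) * db j f z := by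
  obtain ⟨h, _⟩ := h1 m j j f f z
  exact (h (smooth_diff hf z) (smooth_diff hf z)).2.2.2.2.2.2.2

/-- the weak equation `T* v = a` after cutting off -/
lemma weak1 (h1 : StCAL) (hψ : ContDiff ℝ ∞ ψ) (v : Fin m → (Fin m → ℂ) → ℂ)
    (a : (Fin m → ℂ) → ℂ) (hv : ∀ j, L2 Set.univ ψ (v j)) (ha : L2 Set.univ ψ a)
    (hW : WT Set.univ ψ v a) (χ : (Fin m → ℂ) → ℂ) (hχ : ContDiff ℝ ∞ χ)
    (hχc : HasCompactSupport χ) (hχr : ∀ z, star (χ z) = χ z)
    (f : (Fin m → ℂ) → ℂ) (hf : Tst Set.univ f) :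
    ∫ z, (-(χ z * a z) + ∑ j, (dz j χ z * v j z) + ∑ j, dz j (cf ψ) z * (χ z * v j z)) * f z =
      - ∑ j, ∫ z, (χ z * v j z) * dz j f z := by
  obtain ⟨hf1, hf2, _⟩ := hf
  have hcψ := hψ.continuous
  have hs : ∀ j z, star (db j (fun z => (star (f z) * Complex.exp (cf ψ z)) * χ z) z) =
      (dz j f z * χ z + f z * dz j (cf ψ) z * χ z + f z * dz j χ z) *
        Complex.exp (cf ψ z) := by
    intro j z
    have he : ContDiff ℝ ∞ (fun z => Complex.exp (cf ψ z)) := (cf_smooth hψ).cexp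
    rw [db_mul h1 j ((star_smooth hf1).mul he) hχ, db_mul h1 j (star_smooth hf1) he,
      db_star h1 j hf1, db_exp h1 j (cf_smooth hψ)]
    have h2 : star (Complex.exp (cf ψ z)) = Complex.exp (cf ψ z) := by
      have : star (Complex.exp (cf ψ z)) = Complex.exp (star (cf ψ z)) :=
        (Complex.exp_conj _).symm
      rw [this, cf_star]
    simp only [star_add, star_mul', star_star, h2, hχr z,
      star_db h1 j (cf_smooth hψ) cf_star z, star_db h1 j hχ hχr z]
    ring
  have hT : Tst Set.univ (fun z => (star (f z) * Complex.exp (cf ψ z)) * χ z) := by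
    refine ⟨((star_smooth hf1).mul (cf_smooth hψ).cexp).mul hχ, ?_, Set.subset_univ _⟩
    exact hχc.mul_left
  have h3 := hW _ hT
  have hexp : ∀ z, Complex.exp (cf ψ z) * ((Real.exp (-ψ z) : ℝ) : ℂ) = 1 := by
    intro z
    rw [Complex.ofReal_exp, ← Complex.exp_add]
    have : cf ψ z + ((-ψ z : ℝ) : ℂ) = 0 := by
      unfold cf
      push_cast
      ring
    rw [this, Complex.exp_zero]
  have h4 : inn Set.univ ψ a (fun z => (star (f z) * Complex.exp (cf ψ z)) * χ z) =
      ∫ z, a z * (χ z * f z) := by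
    unfold inn
    rw [Measure.restrict_univ]
    refine integral_congr_ae (ae_of_all _ fun z => ?_)
    simp only
    have h2 : star (Complex.exp (cf ψ z)) = Complex.exp (cf ψ z) := by
      have : star (Complex.exp (cf ψ z)) = Complex.exp (star (cf ψ z)) :=
        (Complex.exp_conj _).symm
      rw [this, cf_star]
    simp only [star_mul', star_star, h2, hχr z]
    linear_combination (a z * f z * χ z) * hexp z
  have h5 : ∀ j, inn Set.univ ψ (v j)
      (db j (fun z => (star (f z) * Complex.exp (cf ψ z)) * χ z)) =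
      (∫ z, v j z * (χ z * dz j f z)) + (∫ z, v j z * (f z * dz j (cf ψ) z * χ z)) +
        ∫ z, v j z * (f z * dz j χ z) := by
    intro j
    have i1 : Integrable (fun z => v j z * (χ z * dz j f z)) :=
      intg hcψ (hv j) (hχ.continuous.mul (cont_dz h1 j hf1).1.continuous) hχc.mul_right
    have i2 : Integrable (fun z => v j z * (f z * dz j (cf ψ) z * χ z)) :=
      intg hcψ (hv j) ((hf1.continuous.mul (cont_dz h1 j (cf_smooth hψ)).1.continuous).mul
        hχ.continuous) hχc.mul_left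
    have i3 : Integrable (fun z => v j z * (f z * dz j χ z)) :=
      intg hcψ (hv j) (hf1.continuous.mul (cont_dz h1 j hχ).1.continuous) hf2.mul_right
    have e1 : ∫ z, (v j z * (χ z * dz j f z) + v j z * (f z * dz j (cf ψ) z * χ z)) =
        (∫ z, v j z * (χ z * dz j f z)) + ∫ z, v j z * (f z * dz j (cf ψ) z * χ z) :=
      integral_add i1 i2
    have e2 : ∫ z, ((v j z * (χ z * dz j f z) + v j z * (f z * dz j (cf ψ) z * χ z)) +
        v j z * (f z * dz j χ z)) =
        (∫ z, (v j z * (χ z * dz j f z) + v j z * (f z * dz j (cf ψ) z * χ z))) +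
          ∫ z, v j z * (f z * dz j χ z) := integral_add (i1.add i2) i3
    rw [← e1, ← e2]
    unfold inn
    rw [Measure.restrict_univ]
    refine integral_congr_ae (ae_of_all _ fun z => ?_)
    simp only
    rw [hs j z]
    linear_combination (v j z * (dz j f z * χ z + f z * dz j (cf ψ) z * χ z +
      f z * dz j χ z)) * hexp z
  rw [h4] at h3
  simp only [h5] at h3
  have i0 : Integrable (fun z => a z * (χ z * f z)) :=
    intg hcψ ha (hχ.continuous.mul hf1.continuous) hχc.mul_right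
  have i2 : ∀ j, Integrable (fun z => v j z * (f z * dz j (cf ψ) z * χ z)) := fun j =>
    intg hcψ (hv j) ((hf1.continuous.mul (cont_dz h1 j (cf_smooth hψ)).1.continuous).mul
      hχ.continuous) hχc.mul_left
  have i3 : ∀ j, Integrable (fun z => v j z * (f z * dz j χ z)) := fun j =>
    intg hcψ (hv j) (hf1.continuous.mul (cont_dz h1 j hχ).1.continuous) hf2.mul_right
  have h6 : ∫ z, (-(χ z * a z) + ∑ j, (dz j χ z * v j z) +
      ∑ j, dz j (cf ψ) z * (χ z * v j z)) * f z =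
      -(∫ z, a z * (χ z * f z)) + ∑ j, (∫ z, v j z * (f z * dz j χ z)) +
        ∑ j, ∫ z, v j z * (f z * dz j (cf ψ) z * χ z) := by
    have s3 : Integrable (fun z => ∑ j, v j z * (f z * dz j χ z)) :=
      integrable_finsetSum _ (fun j _ => i3 j)
    have s2 : Integrable (fun z => ∑ j, v j z * (f z * dz j (cf ψ) z * χ z)) :=
      integrable_finsetSum _ (fun j _ => i2 j)
    have e0 : ∫ z, -(a z * (χ z * f z)) = -∫ z, a z * (χ z * f z) := integral_neg _
    have e3 : ∫ z, ∑ j, v j z * (f z * dz j χ z) = ∑ j, ∫ z, v j z * (f z * dz j χ z) :=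
      integral_finsetSum _ (fun j _ => i3 j)
    have e2 : ∫ z, ∑ j, v j z * (f z * dz j (cf ψ) z * χ z) =
        ∑ j, ∫ z, v j z * (f z * dz j (cf ψ) z * χ z) :=
      integral_finsetSum _ (fun j _ => i2 j)
    have e4 : ∫ z, (-(a z * (χ z * f z)) + ∑ j, v j z * (f z * dz j χ z)) =
        (∫ z, -(a z * (χ z * f z))) + ∫ z, ∑ j, v j z * (f z * dz j χ z) :=
      integral_add i0.neg s3
    have e5 : ∫ z, ((-(a z * (χ z * f z)) + ∑ j, v j z * (f z * dz j χ z)) +
        ∑ j, v j z * (f z * dz j (cf ψ) z * χ z)) =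
        (∫ z, (-(a z * (χ z * f z)) + ∑ j, v j z * (f z * dz j χ z))) +
          ∫ z, ∑ j, v j z * (f z * dz j (cf ψ) z * χ z) :=
      integral_add (i0.neg.add s3) s2
    rw [← e0, ← e3, ← e2, ← e4, ← e5]
    refine integral_congr_ae (ae_of_all _ fun z => ?_)
    simp only
    rw [add_mul, add_mul, Finset.sum_mul, Finset.sum_mul]
    congr 1
    · congr 1
      · ring
      · exact Finset.sum_congr rfl fun j _ => by ring
    · exact Finset.sum_congr rfl fun j _ => by ring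
  have h7 : ∀ j, ∫ z, (χ z * v j z) * dz j f z = ∫ z, v j z * (χ z * dz j f z) := by
    intro j
    refine integral_congr_ae (ae_of_all _ fun z => ?_)
    simp only
    ring
  rw [h6, h3]
  simp only [h7]
  simp only [Finset.sum_add_distrib]
  ring

/-- the weak equation `∂̄ v = 0` after cutting off -/
lemma weak2 (h1 : StCAL) (hψ : Continuous ψ) (v : Fin m → (Fin m → ℂ) → ℂ)
    (hv : ∀ j, L2 Set.univ ψ (v j)) (hW : CF v) (χ : (Fin m → ℂ) → ℂ) (hχ : ContDiff ℝ ∞ χ)
    (hχc : HasCompactSupport χ) (f : (Fin m → ℂ) → ℂ) (hf : Tst Set.univ f) (j k : Fin m) :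
    ∫ z, (db j χ z * v k z - db k χ z * v j z) * f z =
      - ((∫ z, (χ z * v k z) * db j f z) - ∫ z, (χ z * v j z) * db k f z) := by
  obtain ⟨hf1, hf2, _⟩ := hf
  have hT : Tst Set.univ (fun z => f z * χ z) :=
    ⟨hf1.mul hχ, hχc.mul_left, Set.subset_univ _⟩
  have h3 := hW _ hT j k
  have i1 : ∀ j k, Integrable (fun z => v k z * (χ z * db j f z)) := fun j k =>
    intg hψ (hv k) (hχ.continuous.mul (cont_dz h1 j hf1).2.continuous) hχc.mul_right
  have i3 : ∀ j k, Integrable (fun z => v k z * (f z * db j χ z)) := fun j k =>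
    intg hψ (hv k) (hf1.continuous.mul (cont_dz h1 j hχ).2.continuous) hf2.mul_right
  have h4 : ∀ j k, ∫ z, v k z * db j (fun z => f z * χ z) z =
      (∫ z, v k z * (χ z * db j f z)) + ∫ z, v k z * (f z * db j χ z) := by
    intro j k
    rw [← integral_add (i1 j k) (i3 j k)]
    refine integral_congr_ae (ae_of_all _ fun z => ?_)
    simp only
    rw [db_mul h1 j hf1 hχ]
    ring
  rw [h4 j k, h4 k j] at h3
  have h5 : ∫ z, (db j χ z * v k z - db k χ z * v j z) * f z =
      (∫ z, v k z * (f z * db j χ z)) - ∫ z, v j z * (f z * db k χ z) := by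
    rw [← integral_sub (i3 j k) (i3 k j)]
    refine integral_congr_ae (ae_of_all _ fun z => ?_)
    simp only
    ring
  have h6 : ∀ j k, ∫ z, (χ z * v k z) * db j f z = ∫ z, v k z * (χ z * db j f z) := by
    intro j k
    refine integral_congr_ae (ae_of_all _ fun z => ?_)
    simp only
    ring
  rw [h5, h6, h6]
  linear_combination h3

/-- MODULE DEN -/
theorem hDEN (h1 : StCAL) (h3 : StMEX) (h4 : StMO1) (h5 : StMO2) : StDEN := by
  intro m ψ hψ v a hv ha hW hC
  have hcψ := hψ.continuous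
  obtain ⟨φ, hφ⟩ := h3 m
  have hψ1 : ∀ j, Continuous (dz j (cf ψ)) := fun j =>
    (cont_dz h1 j (cf_smooth hψ)).1.continuous
  -- the data after cutting off
  have key : ∀ N : ℕ, ∃ η : Fin m → (Fin m → ℂ) → ℂ, (∀ j, Tst Set.univ (η j)) ∧
      (∀ j, L2 Set.univ ψ (fun z => η j z - ct m N z * v j z) ∧
        nrm Set.univ ψ (fun z => η j z - ct m N z * v j z) < 1 / ((N : ℝ) + 1)) ∧
      (L2 Set.univ ψ (fun z => Tad ψ η z - (ct m N z * a z - ∑ j, dz j (ct m N) z * v j z)) ∧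
        nrm Set.univ ψ (fun z => Tad ψ η z - (ct m N z * a z -
          ∑ j, dz j (ct m N) z * v j z)) < 1 / ((N : ℝ) + 1)) ∧
      ∀ j k, L2 Set.univ ψ (fun z => db j (η k) z - db k (η j) z -
        (db j (ct m N) z * v k z - db k (ct m N) z * v j z)) ∧
        nrm Set.univ ψ (fun z => db j (η k) z - db k (η j) z -
          (db j (ct m N) z * v k z - db k (ct m N) z * v j z)) < 1 / ((N : ℝ) + 1) := by
    intro N
    have hχ := ct_smooth (m := m) N
    have hχc := ct_cpt (m := m) N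
    have hdc : ∀ j, HasCompactSupport (dz j (ct m N)) := by
      intro j
      refine HasCompactSupport.intro (isCompact_closedBall 0 (2 * ((N : ℝ) + 1)))
        fun z hz => ?_
      rw [mem_closedBall_zero_iff, not_le] at hz
      exact (ct_dz_zero N j z hz).1
    have hdc' : ∀ j, HasCompactSupport (db j (ct m N)) := by
      intro j
      refine HasCompactSupport.intro (isCompact_closedBall 0 (2 * ((N : ℝ) + 1)))
        fun z hz => ?_
      rw [mem_closedBall_zero_iff, not_le] at hz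
      exact (ct_dz_zero N j z hz).2
    have hwm : ∀ j, MemLp (fun z => ct m N z * v j z) 2 volume := fun j =>
      memLp_of_L2 hcψ (hv j) hχ.continuous hχc
    have hdm : ∀ j k, MemLp (fun z => dz j (ct m N) z * v k z) 2 volume := fun j k =>
      memLp_of_L2 hcψ (hv k) (cont_dz h1 j hχ).1.continuous (hdc j)
    have hdm' : ∀ j k, MemLp (fun z => db j (ct m N) z * v k z) 2 volume := fun j k =>
      memLp_of_L2 hcψ (hv k) (cont_dz h1 j hχ).2.continuous (hdc' j)
    have hpm : ∀ j, MemLp (fun z => dz j (cf ψ) z * (ct m N z * v j z)) 2 volume := by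
      intro j
      have := memLp_of_L2 hcψ (hv j) ((hψ1 j).mul hχ.continuous) (hχc.mul_left)
      refine this.congr_norm ?_ ?_
      · exact (hψ1 j).aestronglyMeasurable.mul (hwm j).1
      · refine ae_of_all _ fun z => ?_
        rw [Pi.mul_apply, mul_assoc]
    have hbm : MemLp (fun z => -(ct m N z * a z) + ∑ j, (dz j (ct m N) z * v j z) +
        ∑ j, dz j (cf ψ) z * (ct m N z * v j z)) 2 volume := by
      refine ((memLp_of_L2 hcψ ha hχ.continuous hχc).neg.add ?_).add ?_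
      · exact memLp_finsetSum _ fun j _ => hdm j j
      · exact memLp_finsetSum _ fun j _ => hpm j
    obtain ⟨η, e1, e2, e3, e4⟩ := moll (ψ := ψ) h4 h5 hφ hψ hψ1
      (fun j z => ct m N z * v j z)
      (fun z => -(ct m N z * a z) + ∑ j, (dz j (ct m N) z * v j z) +
        ∑ j, dz j (cf ψ) z * (ct m N z * v j z))
      (fun j k z => db j (ct m N) z * v k z - db k (ct m N) z * v j z)
      (2 * ((N : ℝ) + 1)) hwm (fun j => hχc.mul_right)
      (fun j z hz => by
        rw [ct_zero N z hz, zero_mul])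
      hbm
      (fun z hz => by
        simp [ct_zero N z hz, (ct_dz_zero N _ z hz).1])
      (fun j k => (hdm' j k).sub (hdm' k j))
      (fun j k z hz => by
        simp [(ct_dz_zero N _ z hz).2])
      (fun f hf => weak1 h1 hψ v a hv ha hW (ct m N) hχ hχc (ct_star N) f hf)
      (fun f hf j k => weak2 h1 hcψ v hv hC (ct m N) hχ hχc f hf j k)
    have hpos : (0 : ℝ) < 1 / ((N : ℝ) + 1) := by positivity
    have e3' : Z ψ (fun i z => Tad ψ (η i) z -
        (ct m N z * a z - ∑ j, dz j (ct m N) z * v j z)) := by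
      have : (fun (i : ℕ) z => Tad ψ (η i) z -
          (ct m N z * a z - ∑ j, dz j (ct m N) z * v j z)) =
          fun (i : ℕ) z => Tad ψ (η i) z - (- (-(ct m N z * a z) +
            ∑ j, (dz j (ct m N) z * v j z) + ∑ j, dz j (cf ψ) z * (ct m N z * v j z)) +
            ∑ j, dz j (cf ψ) z * (ct m N z * v j z)) := by
        funext i z
        ring
      rw [this]
      exact e3
    have E2 : ∀ᶠ i in atTop, ∀ j, nrm Set.univ ψ (fun z => η i j z - ct m N z * v j z) <
        1 / ((N : ℝ) + 1) :=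
      eventually_all.2 fun j => (e2 j).2.eventually_lt_const hpos
    have E3 : ∀ᶠ i in atTop, nrm Set.univ ψ (fun z => Tad ψ (η i) z - (ct m N z * a z -
          ∑ j, dz j (ct m N) z * v j z)) < 1 / ((N : ℝ) + 1) :=
      e3'.2.eventually_lt_const hpos
    have E4 : ∀ᶠ i in atTop, ∀ j k, nrm Set.univ ψ (fun z => db j (η i k) z -
        db k (η i j) z - (db j (ct m N) z * v k z - db k (ct m N) z * v j z)) <
        1 / ((N : ℝ) + 1) :=
      eventually_all.2 fun j => eventually_all.2 fun k =>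
        (e4 j k).2.eventually_lt_const hpos
    obtain ⟨i, g2, g3, g4⟩ := (E2.and (E3.and E4)).exists
    exact ⟨η i, e1 i, fun j => ⟨(e2 j).1 i, g2 j⟩, ⟨e3'.1 i, g3⟩,
      fun j k => ⟨(e4 j k).1 i, g4 j k⟩⟩
  choose H k1 k2 k3 k4 using key
  have hlim : Tendsto (fun N : ℕ => 1 / ((N : ℝ) + 1)) atTop (𝓝 0) :=
    tendsto_one_div_add_atTop_nhds_zero_nat
  obtain ⟨C, hCt⟩ := ct_dz m
  have hC0 : Tendsto (fun N : ℕ => C * (1 / ((N : ℝ) + 1))) atTop (𝓝 0) := by
    simpa using hlim.const_mul C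
  have hZd : ∀ j k, Z ψ (fun N z => dz j (ct m N) z * v k z) := by
    intro j k
    refine Z.small hcψ (hv k) (fun N => ?_) (fun N => C * (1 / ((N : ℝ) + 1))) hC0
      fun N z => ?_
    · exact (cont_dz h1 j (ct_smooth N)).1.continuous.aestronglyMeasurable.mul
        (meas_of_L2 (hv k))
    · rw [norm_mul]
      exact mul_le_mul_of_nonneg_right (hCt N j z).1 (norm_nonneg _)
  have hZd' : ∀ j k, Z ψ (fun N z => db j (ct m N) z * v k z) := by
    intro j k
    refine Z.small hcψ (hv k) (fun N => ?_) (fun N => C * (1 / ((N : ℝ) + 1))) hC0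
      fun N z => ?_
    · exact (cont_dz h1 j (ct_smooth N)).2.continuous.aestronglyMeasurable.mul
        (meas_of_L2 (hv k))
    · rw [norm_mul]
      exact mul_le_mul_of_nonneg_right (hCt N j z).2 (norm_nonneg _)
  have hZn : ∀ j k, Z ψ (fun N z => - (dz j (ct m N) z * v k z)) := by
    intro j k
    refine Z.bd hcψ (hZd j k) (fun N => ?_) 1 fun N z => ?_
    · exact (meas_of_L2 ((hZd j k).1 N)).neg
    · rw [norm_neg, one_mul]
  have hZn' : ∀ j k, Z ψ (fun N z => - (db j (ct m N) z * v k z)) := by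
    intro j k
    refine Z.bd hcψ (hZd' j k) (fun N => ?_) 1 fun N z => ?_
    · exact (meas_of_L2 ((hZd' j k).1 N)).neg
    · rw [norm_neg, one_mul]
  refine ⟨H, k1, ?_, ?_, ?_⟩
  · intro j
    have z1 : Z ψ (fun N z => H N j z - ct m N z * v j z) :=
      ⟨fun N => (k2 N j).1, squeeze_zero (fun N => nrm_nonneg _)
        (fun N => (k2 N j).2.le) hlim⟩
    have z2 := Z.add hcψ z1 (Z_cut hcψ (hv j))
    refine z2.2.congr fun N => ?_
    congr 1
    funext z
    ring
  · have z1 : Z ψ (fun N z => Tad ψ (H N) z - (ct m N z * a z -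
        ∑ j, dz j (ct m N) z * v j z)) :=
      ⟨fun N => (k3 N).1, squeeze_zero (fun N => nrm_nonneg _) (fun N => (k3 N).2.le) hlim⟩
    have z3 := Z.sum hcψ Finset.univ (fun j N z => - (dz j (ct m N) z * v j z))
      (fun j _ => hZn j j)
    have z2 := Z.add hcψ (Z.add hcψ z1 (Z_cut hcψ ha)) z3
    refine z2.2.congr fun N => ?_
    congr 1
    funext z
    simp only
    rw [Finset.sum_neg_distrib]
    ring
  · intro j k
    have z1 : Z ψ (fun N z => db j (H N k) z - db k (H N j) z -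
        (db j (ct m N) z * v k z - db k (ct m N) z * v j z)) :=
      ⟨fun N => (k4 N j k).1, squeeze_zero (fun N => nrm_nonneg _)
        (fun N => (k4 N j k).2.le) hlim⟩
    have z2 := Z.add hcψ z1 (Z.add hcψ (hZd' j k) (hZn' k j))
    refine z2.2.congr fun N => ?_
    congr 1
    funext z
    ring

end main

end Pool.Agent.Helper97.KP
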