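import Pool.Agent.Helper93.KP.St

/-!
# Project KP, module CNT: sum of square roots of gcds
-/

set_option autoImplicit false

noncomputable section

namespace Pool.Agent.Helper97.KP

open Finset Filter Topology Pool.Agent.Helper93.KP

private theorem card_class (Z m : ℕ) (S : Finset ℕ) (hS : ∀ t ∈ S, t ≤ Z)
    (hc : ∀ t ∈ S, ∀ t' ∈ S, t % m = t' % m) : S.card ≤ Z / m + 1 := by
  have h0 : S.card ≤ (range (Z / m + 1)).card := by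
    apply card_le_card_of_injOn (fun t => t / m)
    · intro t ht
      have h1 : t / m < Z / m + 1 := Nat.lt_succ_of_le (Nat.div_le_div_right (hS t ht))
      simpa using h1
    · intro t ht t' ht' h
      have h1 := Nat.div_add_mod t m
      have h2 := Nat.div_add_mod t' m
      have h3 := hc t ht t' ht'
      simp only at h
      rw [← h1, ← h2, h, h3]
  simpa using h0

private theorem cnt_pairs (Z g X Y : ℕ) (hg : 1 ≤ g) (hXY : Nat.Coprime X Y) :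
    (((Icc 1 Z ×ˢ Icc 1 Z).filter
      (fun p : ℕ × ℕ => (g : ℤ) ∣ (p.1 : ℤ) * X - p.2 * Y)).card : ℝ) ≤
      (Z : ℝ) ^ 2 / g + Z := by
  classical
  obtain ⟨g₂, hg₂⟩ : ∃ g₂, g₂ = Nat.gcd g Y := ⟨_, rfl⟩
  have hg₂pos : 0 < g₂ := by rw [hg₂]; exact Nat.gcd_pos_of_pos_left _ hg
  have hg₂g : g₂ ∣ g := by rw [hg₂]; exact Nat.gcd_dvd_left g Y
  have hg₂Y : g₂ ∣ Y := by rw [hg₂]; exact Nat.gcd_dvd_right g Y
  obtain ⟨m, hm⟩ := hg₂g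
  obtain ⟨Y', hY'⟩ := hg₂Y
  have hmpos : 0 < m := by
    rcases Nat.eq_zero_or_pos m with h | h
    · rw [h] at hm; omega
    · exact h
  have hco : Nat.Coprime m Y' := by
    have h1 : Nat.gcd (g₂ * m) (g₂ * Y') = g₂ := by rw [← hm, ← hY', ← hg₂]
    rw [Nat.gcd_mul_left] at h1
    exact Nat.eq_of_mul_eq_mul_left hg₂pos (by rw [h1, Nat.mul_one])
  have hcard : ((Icc 1 Z ×ˢ Icc 1 Z).filter
      (fun p : ℕ × ℕ => (g : ℤ) ∣ (p.1 : ℤ) * X - p.2 * Y)).card =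
      ∑ s ∈ Icc 1 Z, ((Icc 1 Z).filter (fun t : ℕ => (g : ℤ) ∣ (s : ℤ) * X - t * Y)).card := by
    rw [card_filter, sum_product]
    apply sum_congr rfl
    intro s _
    rw [card_filter]
  have h1 : ∀ s ∈ Icc 1 Z, ((Icc 1 Z).filter
      (fun t : ℕ => (g : ℤ) ∣ (s : ℤ) * X - t * Y)).card ≤ if g₂ ∣ s then Z / m + 1 else 0 := by
    intro s hs
    split_ifs with h
    · apply card_class Z m
      · intro t ht
        exact (mem_Icc.mp (mem_filter.mp ht).1).2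
      · intro t ht t' ht'
        have e1 := (mem_filter.mp ht).2
        have e2 := (mem_filter.mp ht').2
        have e3 : (g : ℤ) ∣ ((t' : ℤ) - t) * Y := by
          have h2 := dvd_sub e1 e2
          have h3 : (s : ℤ) * X - t * Y - (s * X - t' * Y) = (t' - t) * Y := by ring
          rwa [h3] at h2
        have e4 : (m : ℤ) ∣ ((t' : ℤ) - t) * Y' := by
          rw [hm, hY'] at e3
          push_cast at e3
          have h4 : ((t' : ℤ) - t) * ((g₂ : ℤ) * Y') = g₂ * (((t' : ℤ) - t) * Y') := by ring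
          rw [h4] at e3
          exact (mul_dvd_mul_iff_left (by exact_mod_cast hg₂pos.ne')).mp e3
        have e5 : (m : ℤ) ∣ (t' : ℤ) - t :=
          (Nat.isCoprime_iff_coprime.mpr hco).dvd_of_dvd_mul_right e4
        exact Nat.modEq_iff_dvd.mpr e5
    · rw [Nat.le_zero, card_eq_zero, filter_eq_empty_iff]
      intro t _ hd
      apply h
      have e1 : (g₂ : ℤ) ∣ (s : ℤ) * X - t * Y :=
        dvd_trans (by rw [hm]; push_cast; exact dvd_mul_right _ _) hd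
      have e2 : (g₂ : ℤ) ∣ (t : ℤ) * Y := by
        rw [hY']; push_cast
        exact ⟨(t : ℤ) * Y', by ring⟩
      have e3 : (g₂ : ℤ) ∣ (s : ℤ) * X := by
        have := dvd_add e1 e2
        rwa [sub_add_cancel] at this
      have e4 : g₂ ∣ s * X := by exact_mod_cast e3
      have e5 : Nat.Coprime g₂ X :=
        (Nat.Coprime.coprime_dvd_right ⟨Y', hY'⟩ hXY).symm
      exact e5.dvd_of_dvd_mul_right e4
  have h2 : ((Icc 1 Z).filter (fun s : ℕ => g₂ ∣ s)).card = Z / g₂ := by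
    have h3 : Icc 1 Z = Ioc 0 Z := by ext x; simp [Nat.succ_le_iff]
    rw [h3]
    exact Nat.Ioc_filter_dvd_card_eq_div Z g₂
  have h3 : ((Icc 1 Z ×ˢ Icc 1 Z).filter
      (fun p : ℕ × ℕ => (g : ℤ) ∣ (p.1 : ℤ) * X - p.2 * Y)).card ≤ Z / g₂ * (Z / m + 1) := by
    rw [hcard]
    refine (sum_le_sum h1).trans ?_
    rw [← sum_filter, sum_const, h2, smul_eq_mul]
  have hg₂R : (0 : ℝ) < g₂ := by exact_mod_cast hg₂pos
  have hg₂1 : (1 : ℝ) ≤ g₂ := by exact_mod_cast hg₂pos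
  have hmR : (0 : ℝ) < m := by exact_mod_cast hmpos
  have hZ : (0 : ℝ) ≤ Z := Nat.cast_nonneg Z
  calc (((Icc 1 Z ×ˢ Icc 1 Z).filter
      (fun p : ℕ × ℕ => (g : ℤ) ∣ (p.1 : ℤ) * X - p.2 * Y)).card : ℝ)
      ≤ ((Z / g₂ * (Z / m + 1) : ℕ) : ℝ) := by exact_mod_cast h3
    _ = ((Z / g₂ : ℕ) : ℝ) * (((Z / m : ℕ) : ℝ) + 1) := by push_cast; ring
    _ ≤ ((Z : ℝ) / g₂) * ((Z : ℝ) / m + 1) := by
        apply mul_le_mul Nat.cast_div_le _ (by positivity) (by positivity)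
        exact add_le_add_left Nat.cast_div_le 1
    _ = (Z : ℝ) ^ 2 / g + Z / g₂ := by
        rw [hm]; push_cast
        field_simp
    _ ≤ (Z : ℝ) ^ 2 / g + Z := by
        have := div_le_self hZ hg₂1
        linarith

private theorem one_g (Z V g X Y : ℕ) (hg : 1 ≤ g) (hXV : X ≤ V) (hYV : Y ≤ V)
    (hXY : Nat.Coprime X Y) :
    ∑ _p ∈ (Icc 1 Z ×ˢ Icc 1 Z).filter (fun p : ℕ × ℕ => (p.1 : ℤ) * X - p.2 * Y ≠ 0 ∧
      (g : ℤ) ∣ (p.1 : ℤ) * X - p.2 * Y), √(g : ℝ) ≤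
      (Z : ℝ) ^ 2 + Z * √((Z : ℝ) * V) := by
  classical
  rcases ((Icc 1 Z ×ˢ Icc 1 Z).filter (fun p : ℕ × ℕ => (p.1 : ℤ) * X - p.2 * Y ≠ 0 ∧
      (g : ℤ) ∣ (p.1 : ℤ) * X - p.2 * Y)).eq_empty_or_nonempty with h | ⟨p, hp⟩
  · rw [h, sum_empty]; positivity
  have hp' := hp
  simp only [mem_filter, mem_product, mem_Icc] at hp'
  obtain ⟨⟨⟨_, hs2⟩, ⟨_, ht2⟩⟩, hne, hdv⟩ := hp'
  have hgZV : (g : ℝ) ≤ (Z : ℝ) * V := by
    have h1 : (g : ℤ) ≤ |(p.1 : ℤ) * X - p.2 * Y| := by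
      apply Int.le_of_dvd (abs_pos.mpr hne)
      exact (dvd_abs _ _).mpr hdv
    have h2 : |(p.1 : ℤ) * X - p.2 * Y| ≤ (Z : ℤ) * V := by
      have h3 : (p.1 : ℤ) * X ≤ (Z : ℤ) * V := by
        exact_mod_cast Nat.mul_le_mul hs2 hXV
      have h4 : (p.2 : ℤ) * Y ≤ (Z : ℤ) * V := by
        exact_mod_cast Nat.mul_le_mul ht2 hYV
      have h5 : (0 : ℤ) ≤ (p.1 : ℤ) * X := by positivity
      have h6 : (0 : ℤ) ≤ (p.2 : ℤ) * Y := by positivity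
      rw [abs_le]
      constructor <;> linarith
    have h7 : (g : ℤ) ≤ (Z : ℤ) * V := h1.trans h2
    exact_mod_cast h7
  have hgR : (1 : ℝ) ≤ g := by exact_mod_cast hg
  have hg0 : (0 : ℝ) < g := by linarith
  have hsq1 : (1 : ℝ) ≤ √(g : ℝ) := by
    rw [Real.one_le_sqrt]; exact hgR
  have hcard : (((Icc 1 Z ×ˢ Icc 1 Z).filter (fun p : ℕ × ℕ => (p.1 : ℤ) * X - p.2 * Y ≠ 0 ∧
      (g : ℤ) ∣ (p.1 : ℤ) * X - p.2 * Y)).card : ℝ) ≤ (Z : ℝ) ^ 2 / g + Z := by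
    refine le_trans ?_ (cnt_pairs Z g X Y hg hXY)
    norm_cast
    apply card_le_card
    intro q hq
    simp only [mem_filter] at hq ⊢
    exact ⟨hq.1, hq.2.2⟩
  rw [sum_const, nsmul_eq_mul]
  calc _ ≤ ((Z : ℝ) ^ 2 / g + Z) * √(g : ℝ) :=
        mul_le_mul_of_nonneg_right hcard (Real.sqrt_nonneg _)
    _ = (Z : ℝ) ^ 2 / g * √(g : ℝ) + Z * √(g : ℝ) := by ring
    _ ≤ (Z : ℝ) ^ 2 + Z * √((Z : ℝ) * V) := by
        apply add_le_add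
        · have h1 : √(g : ℝ) ≤ g := by
            have h2 := Real.mul_self_sqrt hg0.le
            nlinarith [Real.sqrt_nonneg (g : ℝ)]
          have h3 : (Z : ℝ) ^ 2 / g * √(g : ℝ) ≤ (Z : ℝ) ^ 2 / g * g :=
            mul_le_mul_of_nonneg_left h1 (by positivity)
          have h4 : (Z : ℝ) ^ 2 / g * g = (Z : ℝ) ^ 2 := by field_simp
          linarith
        · exact mul_le_mul_of_nonneg_left (Real.sqrt_le_sqrt hgZV) (Nat.cast_nonneg _)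

private theorem all_g (Z V R X Y : ℕ) (hR : 1 ≤ R) (hXV : X ≤ V) (hYV : Y ≤ V)
    (hXY : Nat.Coprime X Y) :
    ∑ p ∈ (Icc 1 Z ×ˢ Icc 1 Z).filter (fun p : ℕ × ℕ => (p.1 : ℤ) * X - p.2 * Y ≠ 0),
      √(Int.gcd ((p.1 : ℤ) * X - p.2 * Y) R : ℝ) ≤
      R.divisors.card * ((Z : ℝ) ^ 2 + Z * √((Z : ℝ) * V)) := by
  classical
  have h1 : ∀ p ∈ (Icc 1 Z ×ˢ Icc 1 Z).filter (fun p : ℕ × ℕ => (p.1 : ℤ) * X - p.2 * Y ≠ 0),
      √(Int.gcd ((p.1 : ℤ) * X - p.2 * Y) R : ℝ) ≤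
      ∑ g ∈ R.divisors, if (g : ℤ) ∣ (p.1 : ℤ) * X - p.2 * Y then √(g : ℝ) else 0 := by
    intro p _
    have h2 : Int.gcd ((p.1 : ℤ) * X - p.2 * Y) R ∈ R.divisors := by
      rw [Nat.mem_divisors]
      refine ⟨?_, by omega⟩
      have := Int.gcd_dvd_right ((p.1 : ℤ) * X - p.2 * Y) (R : ℤ)
      exact_mod_cast this
    have h3 := single_le_sum (f := fun g : ℕ =>
      if (g : ℤ) ∣ (p.1 : ℤ) * X - p.2 * Y then √(g : ℝ) else 0)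
      (fun g _ => by split_ifs <;> positivity) h2
    rw [if_pos (Int.gcd_dvd_left _ _)] at h3
    exact h3
  refine (sum_le_sum h1).trans ?_
  rw [sum_comm]
  have h4 : ∀ g ∈ R.divisors, ∑ p ∈ (Icc 1 Z ×ˢ Icc 1 Z).filter
      (fun p : ℕ × ℕ => (p.1 : ℤ) * X - p.2 * Y ≠ 0),
      (if (g : ℤ) ∣ (p.1 : ℤ) * X - p.2 * Y then √(g : ℝ) else 0) ≤
      (Z : ℝ) ^ 2 + Z * √((Z : ℝ) * V) := by
    intro g hg
    rw [← sum_filter, filter_filter]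
    exact one_g Z V g X Y (Nat.pos_of_mem_divisors hg) hXV hYV hXY
  refine (sum_le_sum h4).trans ?_
  rw [sum_const, nsmul_eq_mul]

private theorem fib (H U : ℕ) (b : ℕ × ℕ) (hb1 : b.1 ≠ 0) (hb2 : b.2 ≠ 0) :
    (((Icc 1 H ×ˢ Icc 1 U) ×ˢ (Icc 1 H ×ˢ Icc 1 U)).filter (fun v : (ℕ × ℕ) × (ℕ × ℕ) =>
      (v.1.1 * v.2.2, v.2.1 * v.1.2) = b)).card ≤ b.1.divisors.card * b.2.divisors.card := by
  classical
  rw [← card_product]
  apply card_le_card_of_injOn (fun v => (v.1.1, v.2.1))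
  · intro v hv
    rw [mem_coe, mem_filter] at hv
    have h2 := hv.2
    rw [Prod.ext_iff] at h2
    simp only at h2
    simp only [coe_product, Set.mem_prod, mem_coe, Nat.mem_divisors]
    exact ⟨⟨⟨v.2.2, h2.1.symm⟩, hb1⟩, ⟨⟨v.1.2, h2.2.symm⟩, hb2⟩⟩
  · intro v hv w hw h
    rw [mem_coe, mem_filter] at hv hw
    have h2 := hv.2
    have h3 := hw.2
    rw [Prod.ext_iff] at h2 h3 h
    simp only at h2 h3 h
    have hv1 := hv.1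
    simp only [mem_product, mem_Icc] at hv1
    have h4 : v.2.2 = w.2.2 := by
      have h5 : v.1.1 * v.2.2 = v.1.1 * w.2.2 := by rw [h2.1, h.1, h3.1]
      exact Nat.eq_of_mul_eq_mul_left hv1.1.1.1 h5
    have h6 : v.1.2 = w.1.2 := by
      have h5 : v.2.1 * v.1.2 = v.2.1 * w.1.2 := by rw [h2.2, h.2, h3.2]
      exact Nat.eq_of_mul_eq_mul_left hv1.2.1.1 h5
    exact Prod.ext (Prod.ext h.1 h6) (Prod.ext h.2 h4)

theorem hCNT : StCNT := by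
  classical
  intro H U V R X Y T hR hX hXV hY hYV hXY hT
  rcases Nat.eq_zero_or_pos (H * U) with hZ0 | hZ
  · have hem : ((Icc 1 H ×ˢ Icc 1 U) ×ˢ (Icc 1 H ×ˢ Icc 1 U)) = ∅ := by
      rcases Nat.mul_eq_zero.mp hZ0 with h | h <;> simp [h]
    rw [hem, filter_empty, sum_empty]
    positivity
  have hT1 : (1 : ℝ) ≤ T := by
    have := hT 1 le_rfl hZ
    simpa using this
  obtain ⟨F, hF⟩ : ∃ F : ℕ × ℕ → ℝ, F = fun p => √(Int.gcd ((p.1 : ℤ) * X - p.2 * Y) R : ℝ) :=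
    ⟨_, rfl⟩
  have hF0 : ∀ p, 0 ≤ F p := fun p => by rw [hF]; positivity
  have hmap : ∀ v ∈ ((Icc 1 H ×ˢ Icc 1 U) ×ˢ (Icc 1 H ×ˢ Icc 1 U)).filter
      (fun v : (ℕ × ℕ) × (ℕ × ℕ) => (v.1.1 : ℤ) * v.2.2 * X - v.2.1 * v.1.2 * Y ≠ 0),
      ((v.1.1 * v.2.2, v.2.1 * v.1.2) : ℕ × ℕ) ∈
      (Icc 1 (H * U) ×ˢ Icc 1 (H * U)).filter
        (fun p : ℕ × ℕ => (p.1 : ℤ) * X - p.2 * Y ≠ 0) := by
    intro v hv
    simp only [mem_filter, mem_product, mem_Icc] at hv ⊢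
    obtain ⟨⟨⟨⟨a1, a2⟩, ⟨a3, a4⟩⟩, ⟨⟨a5, a6⟩, ⟨a7, a8⟩⟩⟩, hne⟩ := hv
    refine ⟨⟨⟨Nat.mul_pos a1 a7, Nat.mul_le_mul a2 a8⟩, ⟨Nat.mul_pos a5 a3,
      Nat.mul_le_mul a6 a4⟩⟩, ?_⟩
    push_cast
    exact hne
  have hsum : ∑ v ∈ ((Icc 1 H ×ˢ Icc 1 U) ×ˢ (Icc 1 H ×ˢ Icc 1 U)).filter
      (fun v : (ℕ × ℕ) × (ℕ × ℕ) => (v.1.1 : ℤ) * v.2.2 * X - v.2.1 * v.1.2 * Y ≠ 0),
      √(Int.gcd ((v.1.1 : ℤ) * v.2.2 * X - v.2.1 * v.1.2 * Y) R : ℝ) =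
      ∑ b ∈ (Icc 1 (H * U) ×ˢ Icc 1 (H * U)).filter
        (fun p : ℕ × ℕ => (p.1 : ℤ) * X - p.2 * Y ≠ 0),
      ∑ v ∈ (((Icc 1 H ×ˢ Icc 1 U) ×ˢ (Icc 1 H ×ˢ Icc 1 U)).filter
      (fun v : (ℕ × ℕ) × (ℕ × ℕ) => (v.1.1 : ℤ) * v.2.2 * X - v.2.1 * v.1.2 * Y ≠ 0)).filter
      (fun v => (v.1.1 * v.2.2, v.2.1 * v.1.2) = b), F (v.1.1 * v.2.2, v.2.1 * v.1.2) := by
    rw [sum_fiberwise_of_maps_to hmap]
    apply sum_congr rfl
    intro v _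
    rw [hF]
    push_cast
    rfl
  rw [hsum]
  have hin : ∀ b ∈ (Icc 1 (H * U) ×ˢ Icc 1 (H * U)).filter
        (fun p : ℕ × ℕ => (p.1 : ℤ) * X - p.2 * Y ≠ 0),
      ∑ v ∈ (((Icc 1 H ×ˢ Icc 1 U) ×ˢ (Icc 1 H ×ˢ Icc 1 U)).filter
      (fun v : (ℕ × ℕ) × (ℕ × ℕ) => (v.1.1 : ℤ) * v.2.2 * X - v.2.1 * v.1.2 * Y ≠ 0)).filter
      (fun v => (v.1.1 * v.2.2, v.2.1 * v.1.2) = b), F (v.1.1 * v.2.2, v.2.1 * v.1.2) ≤
      T ^ 2 * F b := by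
    intro b hb
    have hb' := hb
    simp only [mem_filter, mem_product, mem_Icc] at hb'
    have h1 : ∀ v ∈ (((Icc 1 H ×ˢ Icc 1 U) ×ˢ (Icc 1 H ×ˢ Icc 1 U)).filter
      (fun v : (ℕ × ℕ) × (ℕ × ℕ) => (v.1.1 : ℤ) * v.2.2 * X - v.2.1 * v.1.2 * Y ≠ 0)).filter
      (fun v => (v.1.1 * v.2.2, v.2.1 * v.1.2) = b), F (v.1.1 * v.2.2, v.2.1 * v.1.2) = F b := by
      intro v hv
      rw [(mem_filter.mp hv).2]
    rw [sum_congr rfl h1, sum_const, nsmul_eq_mul]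
    apply mul_le_mul_of_nonneg_right _ (hF0 b)
    have h2 : ((((Icc 1 H ×ˢ Icc 1 U) ×ˢ (Icc 1 H ×ˢ Icc 1 U)).filter
      (fun v : (ℕ × ℕ) × (ℕ × ℕ) => (v.1.1 : ℤ) * v.2.2 * X - v.2.1 * v.1.2 * Y ≠ 0)).filter
      (fun v => (v.1.1 * v.2.2, v.2.1 * v.1.2) = b)).card ≤
        b.1.divisors.card * b.2.divisors.card := by
      refine le_trans (card_le_card ?_) (fib H U b (by omega) (by omega))
      intro v hv
      simp only [mem_filter] at hv ⊢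
      exact ⟨hv.1.1, hv.2⟩
    calc ((((((Icc 1 H ×ˢ Icc 1 U) ×ˢ (Icc 1 H ×ˢ Icc 1 U)).filter
      (fun v : (ℕ × ℕ) × (ℕ × ℕ) => (v.1.1 : ℤ) * v.2.2 * X - v.2.1 * v.1.2 * Y ≠ 0)).filter
      (fun v => (v.1.1 * v.2.2, v.2.1 * v.1.2) = b)).card : ℕ) : ℝ)
        ≤ ((b.1.divisors.card * b.2.divisors.card : ℕ) : ℝ) := by exact_mod_cast h2
      _ = (b.1.divisors.card : ℝ) * b.2.divisors.card := by push_cast; ring
      _ ≤ T * T := mul_le_mul (hT _ hb'.1.1.1 hb'.1.1.2) (hT _ hb'.1.2.1 hb'.1.2.2)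
          (by positivity) (by linarith)
      _ = T ^ 2 := by ring
  refine (sum_le_sum hin).trans ?_
  rw [← mul_sum]
  have hall := all_g (H * U) V R X Y hR hXV hYV hXY
  have h3 : ∑ b ∈ (Icc 1 (H * U) ×ˢ Icc 1 (H * U)).filter
        (fun p : ℕ × ℕ => (p.1 : ℤ) * X - p.2 * Y ≠ 0), F b ≤
      R.divisors.card * (((H : ℝ) * U) ^ 2 + (H : ℝ) * U * √((H : ℝ) * U * V)) := by
    rw [hF]
    push_cast at hall
    exact hall
  calc T ^ 2 * ∑ b ∈ (Icc 1 (H * U) ×ˢ Icc 1 (H * U)).filter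
        (fun p : ℕ × ℕ => (p.1 : ℤ) * X - p.2 * Y ≠ 0), F b
      ≤ T ^ 2 * (R.divisors.card * (((H : ℝ) * U) ^ 2 + (H : ℝ) * U * √((H : ℝ) * U * V))) :=
        mul_le_mul_of_nonneg_left h3 (by positivity)
    _ = _ := by ring

end Pool.Agent.Helper97.KP
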